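import Mathlib

open Polynomial

namespace Pool.Agent.P.MP_96b1db_co

/-- The Wiener polynomial: the sum of `X ^ d(u, v)` over unordered pairs of distinct vertices,
each written once as `u < v`. -/
noncomputable def wiener {n : ℕ} (G : SimpleGraph (Fin n)) : ℤ[X] :=
  ∑ u : Fin n, ∑ v : Fin n with u < v, X ^ G.dist u v

end Pool.Agent.P.MP_96b1db_co
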