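import Pool.Agent.P.MP_96b1db_co.Path

/-! Symmetric pairs of legs used to adjust the Wiener polynomial exactly. -/

open Polynomial Finset

namespace Pool.Agent.P.MP_96b1db_co

/-- Gadget indices. -/
abbrev Gd (r : ℕ) : Type := Fin (r + 1) × Fin 6

/-- Legs: two main legs and a pair of legs for each gadget. -/
abbrev Leg (r : ℕ) : Type := Bool ⊕ (Gd r × Bool)

/-- Points of the spider. -/
abbrev Pt (r : ℕ) : Type := Leg r × Fin (r + 2 + 1)

variable {r : ℕ}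

/-- The two symmetric points of a gadget. -/
def up (γ : Gd r) (b : Bool) : Pt r := (.inr (γ, b), ⟨γ.1 + 1, by have := γ.1.2; omega⟩)

/-- The parent of the first of them. -/
def low (γ : Gd r) : Pt r := (.inr (γ, true), ⟨γ.1, by have := γ.1.2; omega⟩)

/-- Weights on the gadget legs. -/
def gw (b : ℕ) (p : Gd r → ℕ) (z : Gd r → ℤ) : Pt r → ℕ :=
  ∑ γ, (Pi.single (up γ true) (b + z γ).toNat + Pi.single (up γ false) (b - z γ).toNat +
    Pi.single (low γ) (p γ))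

/-- Exchange of the two legs of every gadget. -/
def swapLeg : Leg r ≃ Leg r := Equiv.sumCongr (Equiv.refl _)
  (Equiv.prodCongr (Equiv.refl _) ⟨not, not, Bool.not_not, Bool.not_not⟩)

/-- The difference vector of a gadget. -/
noncomputable def dv (γ : Gd r) : Pt r → ℤ[X] := Pi.single (up γ true) 1 - Pi.single (up γ false) 1

theorem Bf_dv_of_symm (a : Pt r → ℤ[X]) (ha : ∀ l i, a (swapLeg l, i) = a (l, i)) (γ : Gd r) :
    Bf a (dv γ) = 0 := by
  have key : ∀ q, Bf a (Pi.single q 1) = ∑ p, a p * X ^ del p q := by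
    intro q
    rw [Bf_apply]
    refine sum_congr rfl fun p _ => ?_
    rw [sum_eq_single q] <;> simp +contextual
  rw [dv, map_sub, key, key, sub_eq_zero]
  refine Fintype.sum_equiv (Equiv.prodCongr swapLeg (Equiv.refl _)) _ _ fun p => ?_
  have h : (Sum.inr (γ, false) : Leg r) = swapLeg (Sum.inr (γ, true)) := rfl
  simp only [Equiv.prodCongr_apply, Prod.map, Equiv.coe_refl, id, ha, del, up, h,
    Equiv.apply_eq_iff_eq, Prod.mk.eta]

theorem Bf_low_dv (γ' γ : Gd r) : Bf (Pi.single (low γ') 1) (dv γ) =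
    if γ' = γ then X - X ^ (2 * γ.1 + 1 : ℕ) else 0 := by
  rw [dv, map_sub, Bf_single, Bf_single]
  split_ifs with h
  · subst h
    simp only [del, low, up, if_true, Sum.inr.injEq, Prod.mk.injEq, true_and,
      Bool.true_eq_false, if_false]
    congr 1
    · simp
    · congr 1
      omega
  · simp [del, low, up, h]

theorem Bf_dv_dv (γ' γ : Gd r) : Bf (dv γ') (dv γ) =
    if γ' = γ then 2 - 2 * X ^ (2 * γ.1 + 2 : ℕ) else 0 := by
  simp only [dv, map_sub, LinearMap.sub_apply, Bf_single]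
  split_ifs with h
  · subst h
    simp only [del, up, if_true, Sum.inr.injEq, Prod.mk.injEq, true_and,
      Bool.true_eq_false, Bool.false_eq_true, if_false]
    have : (γ'.1 : ℕ) + 1 + (γ'.1 + 1) = 2 * γ'.1 + 2 := by omega
    rw [this]
    simp
    ring
  · simp [del, up, h]

theorem Pw_dv (γ : Gd r) : Pw (dv γ) = 0 := by
  simp [dv, Pw_single, up]

theorem cw_gw (b : ℕ) (p : Gd r → ℕ) (z : Gd r → ℤ) (hz : ∀ γ, |z γ| ≤ b) :
    cw (gw b p z) = cw (gw b p 0) + ∑ γ, (z γ : ℤ[X]) • dv γ := by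
  simp only [gw, map_sum, map_add, cw_single, ← sum_add_distrib]
  refine sum_congr rfl fun γ _ => ?_
  have h := abs_le.mp (hz γ)
  have h1 : (((b + z γ).toNat : ℕ) : ℤ[X]) = b + z γ := by
    rw [← Int.cast_natCast, Int.toNat_of_nonneg (by omega)]
    simp
  have h2 : (((b - z γ).toNat : ℕ) : ℤ[X]) = b - z γ := by
    rw [← Int.cast_natCast, Int.toNat_of_nonneg (by omega)]
    simp
  rw [h1, h2, dv]
  simp only [Pi.zero_apply, add_zero, sub_zero, Int.toNat_natCast]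
  module

theorem sum_gw (b : ℕ) (p : Gd r → ℕ) (z : Gd r → ℤ) (hz : ∀ γ, |z γ| ≤ b) :
    ∑ x, gw b p z x = ∑ x, gw b p 0 x := by
  simp only [gw, Finset.sum_apply, Pi.add_apply]
  rw [sum_comm, sum_comm (s := (univ : Finset (Pt r)))]
  refine sum_congr rfl fun γ _ => ?_
  have h := abs_le.mp (hz γ)
  simp only [sum_add_distrib, sum_pi_single', mem_univ, if_true, Pi.zero_apply]
  omega

theorem gw_top (b : ℕ) (p : Gd r → ℕ) (z : Gd r → ℤ) (x : Pt r) (hx : (x.2 : ℕ) = r + 2) :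
    gw b p z x = 0 := by
  simp only [gw, Finset.sum_apply, Pi.add_apply]
  refine sum_eq_zero fun γ _ => ?_
  have := γ.1.2
  have h1 : ∀ b, x ≠ up γ b := by
    rintro b rfl
    simp only [up] at hx
    omega
  have h2 : x ≠ low γ := by
    rintro rfl
    simp only [low] at hx
    omega
  rw [Pi.single_eq_of_ne (h1 _), Pi.single_eq_of_ne (h1 _), Pi.single_eq_of_ne h2]
  rfl

/-- The weight vector of the tree. -/
noncomputable def om (ℓ : Pt r → ℕ) : Pt r → ℤ[X] := skel (.inl false) + (X : ℤ[X]) • cw ℓ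

theorem Bf_om_dv (μ : Pt r → ℕ) (hμ : ∀ g i, μ (.inr g, i) = 0) (b : ℕ) (p : Gd r → ℕ)
    (γ : Gd r) :
    Bf (om (μ + gw b p 0)) (dv γ) = X * ((p γ : ℤ[X]) * (X - X ^ (2 * γ.1 + 1 : ℕ))) := by
  have h1 : Bf (skel (.inl false)) (dv γ) = 0 := Bf_dv_of_symm _ (by
    rintro (l | ⟨g, c⟩) i <;> simp [skel, swapLeg]) γ
  have h2 : Bf (cw μ) (dv γ) = 0 := Bf_dv_of_symm _ (by
    rintro (l | ⟨g, c⟩) i <;> simp [cw, swapLeg, hμ]) γ
  have h3 : ∀ γ', Bf (Pi.single (up γ' true) 1) (dv γ) + Bf (Pi.single (up γ' false) 1) (dv γ)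
      = 0 := by
    intro γ'
    rw [← LinearMap.add_apply, ← map_add]
    refine Bf_dv_of_symm _ ?_ γ
    rintro (l | ⟨g, c⟩) i
    · simp [swapLeg]
    · cases c <;> simp [swapLeg, up, Pi.single_apply]
  simp only [om, gw, map_add, map_smul, map_sum, cw_single, LinearMap.add_apply,
    LinearMap.smul_apply, LinearMap.sum_apply, h1, h2, zero_add, smul_eq_mul, Pi.zero_apply,
    add_zero, sub_zero, ← mul_add, h3, mul_zero, Bf_low_dv, mul_ite, sum_ite_eq', mem_univ,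
    if_true]

theorem Bf_om (μ : Pt r → ℕ) (hμ : ∀ g i, μ (.inr g, i) = 0) (b : ℕ) (p : Gd r → ℕ)
    (z : Gd r → ℤ) (hz : ∀ γ, |z γ| ≤ b) :
    Bf (om (μ + gw b p z)) (om (μ + gw b p z)) = Bf (om (μ + gw b p 0)) (om (μ + gw b p 0)) +
      2 * ∑ γ, (C (z γ ^ 2) * (X ^ 2 - X ^ (2 * γ.1 + 4 : ℕ)) +
        C (p γ * z γ) * (X ^ 3 - X ^ (2 * γ.1 + 3 : ℕ))) ∧
    Pw (om (μ + gw b p z)) = Pw (om (μ + gw b p 0)) := by
  have h1 : om (μ + gw b p z) = om (μ + gw b p 0) + (X : ℤ[X]) • ∑ γ, (z γ : ℤ[X]) • dv γ := by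
    simp only [om, map_add, cw_gw b p z hz, smul_add, add_assoc]
  refine ⟨?_, by simp [h1, Pw_dv]⟩
  set w := om (μ + gw b p 0) with hw
  have h2 : ∀ γ, Bf w (dv γ) = X * ((p γ : ℤ[X]) * (X - X ^ (2 * γ.1 + 1 : ℕ))) := Bf_om_dv μ hμ b p
  have h3 : ∀ γ, Bf (dv γ) w = X * ((p γ : ℤ[X]) * (X - X ^ (2 * γ.1 + 1 : ℕ))) := fun γ => by
    rw [Bf_symm, h2]
  rw [h1]
  simp only [map_add, map_smul, map_sum, LinearMap.add_apply, LinearMap.smul_apply,
    LinearMap.sum_apply, smul_eq_mul, h2, h3, Bf_dv_dv, mul_ite, mul_zero, sum_ite_eq', mem_univ,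
    if_true, add_assoc, add_right_inj, mul_sum, ← sum_add_distrib]
  refine sum_congr rfl fun γ _ => ?_
  simp only [map_mul, map_pow, eq_intCast, map_natCast]
  ring

/-- The fixed one-sided weights. -/
def pp (m : ℕ) (γ : Gd r) : ℕ := if γ.2 = 4 then m else if γ.2 = 5 then 1 else 0

theorem exists_params (m : ℕ) (hm : 0 < m) (O E : ℤ) (hO : |O| ≤ m ^ 2)
    (hE : |E - 3 * (m : ℤ) ^ 2| ≤ (m : ℤ) ^ 2) : ∃ z : Fin 6 → ℤ, (∀ τ, |z τ| ≤ (2 * m : ℕ)) ∧
      ∑ τ, z τ ^ 2 = E ∧ m * z 4 + z 5 = O := by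
  have hm' : (0 : ℤ) < m := by exact_mod_cast hm
  rw [abs_le] at hO hE
  have a1 : 0 ≤ O % m := Int.emod_nonneg _ hm'.ne'
  have a2 : O % m < m := Int.emod_lt_of_pos _ hm'
  have a3 : m * (O / m) + O % m = O := Int.mul_ediv_add_emod O m
  have a4 : O / m ≤ m := by nlinarith
  have a5 : -m ≤ O / m := by nlinarith
  have a6 : 0 ≤ E - (O / m) ^ 2 - (O % m) ^ 2 := by nlinarith
  obtain ⟨a, b, c, d, h⟩ := Nat.sum_four_squares (E - (O / m) ^ 2 - (O % m) ^ 2).toNat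
  have h' : (a : ℤ) ^ 2 + b ^ 2 + c ^ 2 + d ^ 2 = E - (O / m) ^ 2 - (O % m) ^ 2 := by
    rw [← Int.toNat_of_nonneg a6, ← h]
    push_cast
    ring
  have key : ∀ x : ℤ, x ^ 2 ≤ 4 * m ^ 2 → |x| ≤ (2 * m : ℕ) := fun x hx => by
    push_cast
    exact abs_le_of_sq_le_sq' (by nlinarith) (by omega) |> abs_le.mpr
  have b1 := sq_nonneg (a : ℤ)
  have b2 := sq_nonneg (b : ℤ)
  have b3 := sq_nonneg (c : ℤ)
  have b4 := sq_nonneg (d : ℤ)
  have b5 := sq_nonneg (O / m)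
  have b6 := sq_nonneg (O % m)
  refine ⟨![a, b, c, d, O / m, O % m], fun τ => key _ ?_, ?_, a3⟩
  · fin_cases τ <;> simp <;> linarith
  · simp [Fin.sum_univ_succ]
    linarith

theorem exists_tree_of_bounds (μ : Pt r → ℕ) (hμ : ∀ g i, μ (.inr g, i) = 0)
    (hμ' : ∀ x, (x.2 : ℕ) = r + 2 → μ x = 0) (m : ℕ) (hm : 0 < m) (T H : ℤ[X]) (n : ℤ)
    (hH : H = Bf (om (μ + gw (2 * m) (pp m) 0)) (om (μ + gw (2 * m) (pp m) 0)) +
      ((∑ x, (μ + gw (2 * m) (pp m) 0 : Pt r → ℕ) x : ℕ) : ℤ[X]) * (1 - X ^ 2))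
    (hn : n = (Pw (om (μ + gw (2 * m) (pp m) 0))).eval 1)
    (hn' : n = (Pw (om (μ + gw (2 * m) (pp m) 0))).eval (-1) ^ 2)
    (hO : ∀ a : Fin (r + 1), |H.coeff (2 * a + 3) - 2 * T.coeff (2 * a + 3)| ≤ 2 * m ^ 2)
    (hE : ∀ a : Fin (r + 1),
      |H.coeff (2 * a + 4) - 2 * T.coeff (2 * a + 4) - 6 * (m : ℤ) ^ 2| ≤ 2 * (m : ℤ) ^ 2)
    (h0 : T.coeff 0 = 0) (h1 : T.coeff 1 + 1 = n) (h2 : ∀ k, 2 * (r + 2) < k → T.coeff k = 0)
    (h3 : 2 * T.eval 1 + n = n ^ 2) (h4 : T.eval (-1) = 0) :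
    ∃ (n : ℕ) (G : SimpleGraph (Fin n)), G.IsTree ∧ 2 * (r + 2) ≤ G.diam ∧ wiener G = T := by
  have htop : ∀ z, ∀ x : Pt r, (x.2 : ℕ) = r + 2 → (μ + gw (2 * m) (pp m) z : Pt r → ℕ) x = 0 :=
    fun z x hx => by rw [Pi.add_apply, hμ' x hx, gw_top _ _ _ x hx]
  obtain ⟨n₀, G₀, -, -, -, hG₀, -⟩ :=
    exists_spider (.inl false : Leg r) (.inl true) (by simp) _ (htop 0)
  have hW₀ : ∀ k, k ≠ 0 → H.coeff k = 2 * (wiener G₀).coeff k := by
    intro k hk
    rw [hH, om, ← hG₀, coeff_add, two_mul, two_mul, coeff_add, ← C_eq_natCast, coeff_C,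
      if_neg hk, add_zero]
  choose z hz1 hz2 hz3 using fun a : Fin (r + 1) => exists_params m hm
    ((wiener G₀).coeff (2 * a + 3) - T.coeff (2 * a + 3))
    ((wiener G₀).coeff (2 * a + 4) - T.coeff (2 * a + 4))
    (by
      have := hO a
      rw [hW₀ _ (by omega), abs_le] at this
      rw [abs_le]
      omega)
    (by
      have := hE a
      rw [hW₀ _ (by omega), abs_le] at this
      rw [abs_le]
      omega)
  let zz : Gd r → ℤ := fun γ => z γ.1 γ.2
  have hzz : ∀ γ, |zz γ| ≤ (2 * m : ℕ) := fun γ => hz1 γ.1 γ.2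
  obtain ⟨n₁, G, hG1, hG2, hG3, hG4, hG5, hG6, hG7⟩ :=
    exists_spider (.inl false : Leg r) (.inl true) (by simp) _ (htop zz)
  obtain ⟨e1, e2⟩ := Bf_om μ hμ (2 * m) (pp m) zz hzz
  have e3 : ∑ x, (μ + gw (2 * m) (pp m) zz : Pt r → ℕ) x = ∑ x, (μ + gw (2 * m) (pp m) 0 : Pt r → ℕ) x := by
    simp only [Pi.add_apply, sum_add_distrib, sum_gw _ _ zz hzz]
  have e4 : n = n₁ := by
    rw [hn, ← e2, hG3, Pw_apply, eval_finsetSum]
    refine sum_congr rfl fun x _ => ?_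
    simp only [om, skel, cw, Pi.add_apply, Pi.smul_apply, smul_eq_mul, AddMonoidHom.coe_mk,
      ZeroHom.coe_mk]
    split_ifs <;> simp
  refine ⟨n₁, G, hG1, hG2, ?_⟩
  change _ = Bf (om _) (om _) + _ at hG4
  have e5 : 2 * wiener G + (n₁ : ℤ[X]) = H + 2 * ∑ γ : Gd r,
      (C (zz γ ^ 2) * (X ^ 2 - X ^ (2 * γ.1 + 4 : ℕ)) +
        C (pp m γ * zz γ) * (X ^ 3 - X ^ (2 * γ.1 + 3 : ℕ))) := by
    rw [hG4, e1, e3, hH]
    ring
  have e6 : ∀ k, 4 ≤ k → (wiener G).coeff k = T.coeff k := by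
    intro k hk
    by_cases hk' : 2 * (r + 2) < k
    · rw [hG7 k hk', h2 k hk']
    have h5 := congrArg (fun P => coeff P k) e5
    obtain ⟨k, rfl⟩ : ∃ j, k = j + 1 := ⟨k - 1, by omega⟩
    simp only [coeff_add, coeff_ofNat_mul, ← C_eq_natCast, coeff_C, hW₀ _ k.succ_ne_zero,
      finsetSum_coeff, coeff_C_mul, coeff_sub, coeff_X_pow, Fintype.sum_prod_type] at h5
    rw [if_neg (by omega), if_neg (by omega), if_neg (by omega)] at h5
    rcases Nat.even_or_odd' k with ⟨j, rfl | rfl⟩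
    · let a : Fin (r + 1) := ⟨j - 1, by omega⟩
      have ha : 2 * a + 3 = 2 * j + 1 := by
        simp only [a]
        omega
      rw [sum_eq_single a (fun b _ hb => sum_eq_zero fun τ _ => by
        have : (b : ℕ) ≠ j - 1 := fun h => hb (Fin.ext h)
        rw [if_neg (by omega), if_neg (by omega)]
        simp) (by simp)] at h5
      have h6 := hz3 a
      rw [ha] at h6
      rw [if_neg (by omega), if_pos (by omega)] at h5
      simp [Fin.sum_univ_succ, pp, zz] at h5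
      linarith
    · let a : Fin (r + 1) := ⟨j - 1, by omega⟩
      have ha : 2 * a + 4 = 2 * j + 1 + 1 := by
        simp only [a]
        omega
      rw [sum_eq_single a (fun b _ hb => sum_eq_zero fun τ _ => by
        have : (b : ℕ) ≠ j - 1 := fun h => hb (Fin.ext h)
        rw [if_neg (by omega), if_neg (by omega)]
        simp) (by simp)] at h5
      have h6 := hz2 a
      rw [ha] at h6
      rw [if_pos (by omega), if_neg (by omega)] at h5
      simp [zz, h6] at h5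
      linarith
  have e7 : wiener G - T = C ((wiener G - T).coeff 2) * X ^ 2 +
      C ((wiener G - T).coeff 3) * X ^ 3 := by
    ext k
    simp only [coeff_add, coeff_C_mul, coeff_X_pow, coeff_sub]
    rcases (by omega : k = 0 ∨ k = 1 ∨ k = 2 ∨ k = 3 ∨ 4 ≤ k) with rfl | rfl | rfl | rfl | hk
    · simp [hG5, h0]
    · simp
      omega
    · simp
    · simp
    · rw [e6 k hk, if_neg (by omega), if_neg (by omega)]
      simp
  have e8 := congrArg (eval 1) hG4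
  have e9 := congrArg (eval (-1)) hG4
  rw [eval_add, eval_add, eval_Bf _ (by norm_num), e2] at e8 e9
  have e10 := congrArg (eval 1) e7
  have e11 := congrArg (eval (-1)) e7
  simp only [eval_mul, eval_ofNat, eval_natCast, eval_sub, eval_one, eval_pow, eval_X, eval_add,
    eval_C] at e8 e9 e10 e11
  rw [← hn] at e8
  rw [← sq, ← hn'] at e9
  have e12 : (wiener G - T).coeff 2 = 0 := by nlinarith
  have e13 : (wiener G - T).coeff 3 = 0 := by nlinarith
  rw [e12, e13] at e7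
  simpa [sub_eq_zero] using e7

end Pool.Agent.P.MP_96b1db_co
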