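import Pool.Agent.P.MP_96b1db_co.Gadget

/-! Trees of large diameter with rational Wiener roots. -/

open Polynomial Finset Filter

namespace Pool.Agent.P.MP_96b1db_co

variable {r : ℕ}

/-- The main path. -/
def pth (r : ℕ) (i : ℕ) : Pt r :=
  if i ≤ r + 1 then (.inl false, ⟨r + 1 - i, by omega⟩)
  else (.inl true, ⟨min (i - (r + 1)) (r + 1), by omega⟩)

theorem del_pth (i : ℕ) (hi : i ≤ 2 * r + 2) (j : ℕ) (hj : j ≤ 2 * r + 2) :
    del (pth r i) (pth r j) = (i - j) + (j - i) := by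
  unfold pth
  split_ifs <;> simp [del] <;> omega

/-- The centre. -/
def c0 (r : ℕ) : Pt r := (.inl false, ⟨0, by omega⟩)

/-- A neighbour of the centre. -/
def c1 (r : ℕ) : Pt r := (.inl false, ⟨1, by omega⟩)

/-- Weights at the centre and its neighbour. -/
def bw (a b : ℕ) : Pt r → ℕ := Pi.single (c0 r) a + Pi.single (c1 r) b

theorem cw_bw (a b : ℕ) : cw (bw (r := r) a b) =
    (a : ℤ[X]) • Pi.single (c0 r) 1 + (b : ℤ[X]) • Pi.single (c1 r) 1 := by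
  simp only [bw, map_add, cw_single]

theorem Pw_bw (a b : ℕ) : Pw (cw (bw (r := r) a b)) = (a : ℤ[X]) + (b : ℤ[X]) * X := by
  simp [cw_bw, Pw_single, c0, c1]

theorem bw_inr (a b : ℕ) (g) (i) : bw (r := r) a b (.inr g, i) = 0 := by
  simp [bw, c0, c1]

theorem bw_top (a b : ℕ) (x : Pt r) (hx : (x.2 : ℕ) = r + 2) : bw a b x = 0 := by
  have h0 : x ≠ c0 r := by
    rintro rfl
    simp [c0] at hx
  have h1 : x ≠ c1 r := by
    rintro rfl
    simp [c1] at hx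
  simp [bw, h0, h1]

theorem gw_split (m : ℕ) : gw (r := r) (2 * m) (pp m) 0 =
    m • gw 2 (fun γ => if γ.2 = 4 then 1 else 0) 0 +
      gw 0 (fun γ => if γ.2 = 5 then 1 else 0) 0 := by
  simp only [gw, smul_sum, ← sum_add_distrib]
  refine sum_congr rfl fun γ _ => ?_
  have h : pp m γ = m * (if γ.2 = 4 then 1 else 0) + (if γ.2 = 5 then 1 else 0) := by
    unfold pp
    split_ifs <;> simp_all
  simp only [h, Pi.zero_apply, add_zero, sub_zero, Int.toNat_natCast, smul_add, ← Pi.single_smul,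
    smul_eq_mul, Pi.single_add, Pi.single_zero, zero_add, mul_comm m 2]
  abel

theorem coeff_offset (k : ℕ) (a : Fin (r + 1)) :
    (∑ b : Fin (r + 1), (6 - 6 * X ^ (2 * b + 2 : ℕ) : ℤ[X])).coeff (2 * a + 1 + k) =
      if k = 1 then -6 else (∑ b : Fin (r + 1),
        (6 - 6 * X ^ (2 * b + 2 : ℕ) : ℤ[X])).coeff (2 * a + 1 + k) := by
  split_ifs with h
  · subst h
    simp only [finsetSum_coeff, coeff_sub, coeff_ofNat_mul, coeff_X_pow]
    rw [sum_eq_single a (fun b _ hb => by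
      have : (b : ℕ) ≠ a := fun h => hb (Fin.ext h)
      rw [if_neg (by omega), coeff_ofNat_succ]
      simp) (by simp), if_pos (by omega), coeff_ofNat_succ]
    simp
  · rfl

theorem coeff_offset_odd (a : Fin (r + 1)) :
    (∑ b : Fin (r + 1), (6 - 6 * X ^ (2 * b + 2 : ℕ) : ℤ[X])).coeff (2 * a + 1) = 0 := by
  simp only [finsetSum_coeff, coeff_sub, coeff_ofNat_mul, coeff_X_pow]
  refine sum_eq_zero fun b _ => ?_
  rw [if_neg (by omega), coeff_ofNat_succ]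
  simp

/-- The limit shape and a nearby polynomial with rational roots. -/
theorem exists_shape (r : ℕ) : ∃ (ν : Pt r → ℕ) (N : ℕ) (ρ : Fin (2 * r + 1) → ℚ),
    let σ := ν + gw 2 (fun γ => if γ.2 = 4 then 1 else 0) 0
    let Q : ℚ[X] := (X + 1) * ∏ i, (X - C (ρ i))
    (∀ g i, ν (.inr g, i) = 0) ∧ (∀ x, (x.2 : ℕ) = r + 2 → ν x = 0) ∧ 0 < N ∧
      (Pw (cw σ)).eval 1 = N ∧ (Pw (cw σ)).eval (-1) = 0 ∧ Q.eval 0 ≠ 0 ∧ Q.eval 1 ≠ 0 ∧
      ∀ a : Fin (r + 1),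
        |(N : ℝ) ^ 2 / (Q.eval 1 : ℚ) * (Q.coeff (2 * a + 1) : ℚ) -
          (Bf (cw σ) (cw σ)).coeff (2 * a + 1)| < 1 ∧
        |(N : ℝ) ^ 2 / (Q.eval 1 : ℚ) * (Q.coeff (2 * a + 2) : ℚ) -
          ((Bf (cw σ) (cw σ)).coeff (2 * a + 2) - 6)| < 1 := by
  obtain ⟨σ₀, ξ, h1, h2, h3, h4, h5, h6⟩ :=
    exists_path (pth r) (2 * r + 2) del_pth (2 * r + 2) (by omega) le_rfl
  set g := gw (r := r) 2 (fun γ => if γ.2 = 4 then 1 else 0) 0 with hg
  set s := (Pw (cw g)).eval (-1) with hs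
  set U : ℤ[X] := ∑ b : Fin (r + 1), (6 - 6 * X ^ (2 * b + 2 : ℕ)) with hU
  obtain ⟨S, hS, h7⟩ := exists_scale_sign σ₀ (bw (-s).toNat s.toNat + g) U _ ξ h6
  rw [← add_assoc] at h7
  set ν := S • σ₀ + bw (-s).toNat s.toNat with hν
  have a1 : ∀ g i, ν (.inr g, i) = 0 := by
    intro g i
    have : σ₀ (.inr g, i) = 0 := by
      by_contra h
      obtain ⟨j, -, hj⟩ := h1 _ h
      unfold pth at hj
      split_ifs at hj <;> simp at hj
    simp [hν, this, bw_inr]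
  have a2 : ∀ x, (x.2 : ℕ) = r + 2 → ν x = 0 := by
    intro x hx
    have : σ₀ x = 0 := by
      by_contra h
      obtain ⟨j, -, rfl⟩ := h1 _ h
      unfold pth at hx
      split_ifs at hx <;> simp at hx <;> omega
    simp [hν, this, bw_top _ _ x hx]
  have a3 : (Pw (cw (ν + g))).eval 1 = (∑ x, (ν + g) x : ℕ) := by
    simp [Pw_apply, cw, eval_finsetSum]
  have a4 : 0 < ∑ x, (ν + g) x :=
    sum_pos' (fun _ _ => Nat.zero_le _) ⟨pth r 0, mem_univ _, by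
      have := Nat.mul_pos hS (Nat.pos_of_ne_zero h2)
      simp only [hν, Pi.add_apply, Pi.smul_apply, smul_eq_mul]
      omega⟩
  have a5 : (Pw (cw (ν + g))).eval (-1) = 0 := by
    simp only [hν, map_add, cw_nsmul, map_smul, smul_eq_mul, eval_add, eval_mul, h3, Pw_bw, ← hs,
      eval_natCast, eval_X]
    omega
  have a6 : ∀ x : ℤ, x ^ 2 = 1 → U.eval x = 0 := fun x hx => by
    simp only [hU, eval_finsetSum]
    refine sum_eq_zero fun b _ => ?_
    simp [pow_add, pow_mul, hx]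
  set K := (Bf (cw (ν + g)) (cw (ν + g)) + U).map (algebraMap ℤ ℝ) with hK
  have hKe : ∀ x : ℤ, x ^ 2 = 1 → K.eval (x : ℝ) = (((Pw (cw (ν + g))).eval x : ℤ) : ℝ) ^ 2 := by
    intro x hx
    have : (x : ℝ) = algebraMap ℤ ℝ x := rfl
    rw [hK, this, eval_map, eval₂_at_apply, eval_add, a6 x hx, eval_Bf x hx]
    simp [sq]
  have hK1 : K.eval 1 = ((∑ x, (ν + g) x : ℕ) : ℝ) ^ 2 := by
    have := hKe 1 (by norm_num)
    rw [a3] at this
    exact_mod_cast this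
  obtain ⟨c, ρ, hfac⟩ := exists_factor K (2 * r + 1) (by
      refine natDegree_map_le.trans (natDegree_add_le_of_degree_le
        (natDegree_Bf_cw _ _ fun p q hp hq => ?_) ?_)
      · have key : ∀ p, (ν + g) p ≠ 0 → (p.2 : ℕ) ≤ r + 1 := fun p hp => by
          by_contra hcon
          have h8 := p.2.2
          exact hp (by rw [Pi.add_apply, a2 p (by omega), hg, gw_top _ _ _ p (by omega)])
        have := key p hp
        have := key q hq
        have := del_le p q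
        omega
      · refine natDegree_sum_le_of_forall_le _ _ fun b _ => ?_
        have := b.2
        compute_degree
        omega)
    (by
      have := hKe (-1) (by norm_num)
      rw [a5] at this
      simpa using this) ξ (fun i hi => h5 i (by omega))
    (fun i hi => by
      rw [hK, eval_map_algebraMap]
      exact h7 i (by omega))
  obtain ⟨ρ', b1, b2, b3⟩ := exists_approx K c ρ hfac (by
      have := h7 0 (by omega)
      rw [h4, ← eval_map_algebraMap, ← hK] at this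
      intro h
      simp [h] at this)
    (by
      rw [hK1]
      positivity) (2 * r + 2)
  refine ⟨ν, _, ρ', a1, a2, a4, a3, a5, b1, b2, fun a => ⟨?_, ?_⟩⟩
  · have := b3 (2 * a + 1) (by omega)
    rwa [hK1, hK, coeff_map, coeff_add, coeff_offset_odd, add_zero] at this
  · have := b3 (2 * a + 1 + 1) (by omega)
    rw [hK1, hK, coeff_map, coeff_add, coeff_offset, if_pos rfl] at this
    simpa [sub_eq_add_neg] using this

theorem Bf_expand (A₀ A₁ A₂ : Pt r → ℤ[X]) : ∃ P₀ P₁ P₂ P₃ : ℤ[X], ∀ t : ℤ,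
    Bf (A₀ + C t • A₁ + C t ^ 2 • A₂) (A₀ + C t • A₁ + C t ^ 2 • A₂) =
      C (t ^ 4) * Bf A₂ A₂ + C (t ^ 3) * P₃ + C (t ^ 2) * P₂ + C t * P₁ + P₀ := by
  refine ⟨Bf A₀ A₀, Bf A₀ A₁ + Bf A₁ A₀, Bf A₀ A₂ + Bf A₁ A₁ + Bf A₂ A₀, Bf A₁ A₂ + Bf A₂ A₁,
    fun t => ?_⟩
  simp only [map_add, map_smul, LinearMap.add_apply, LinearMap.smul_apply, smul_eq_mul, map_pow]
  ring

theorem exists_tree_rational (r : ℕ) : ∃ (n : ℕ) (G : SimpleGraph (Fin n)), G.IsTree ∧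
    2 * (r + 2) ≤ G.diam ∧ ∀ z : ℂ, aeval z (wiener G) = 0 → ∃ q : ℚ, z = q := by
  obtain ⟨ν, N, ρ, h1, h2, hN, h3, h4, hQ0, hQ1, h5⟩ := exists_shape r
  set σ := ν + gw 2 (fun γ => if γ.2 = 4 then 1 else 0) 0 with hσ
  set Q : ℚ[X] := (X + 1) * ∏ i, (X - C (ρ i)) with hQ
  obtain ⟨b₀, hb₀, hU₀⟩ :=
    IsLocalization.integerNormalization_spec (nonZeroDivisors ℤ) (C (Q.eval 0)⁻¹ * Q)
  obtain ⟨b₁, hb₁, hU₁⟩ :=
    IsLocalization.integerNormalization_spec (nonZeroDivisors ℤ) (C (2 * Q.eval 1)⁻¹ * Q)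
  generalize IsLocalization.integerNormalization (nonZeroDivisors ℤ) (C (Q.eval 0)⁻¹ * Q) = U₀
    at hU₀
  generalize IsLocalization.integerNormalization (nonZeroDivisors ℤ) (C (2 * Q.eval 1)⁻¹ * Q) = U₁
    at hU₁
  rw [mem_nonZeroDivisors_iff_ne_zero] at hb₀ hb₁
  obtain ⟨B, hB⟩ : ∃ B : ℕ, (B : ℤ) = (b₀ * b₁) ^ 2 := ⟨_, Int.toNat_of_nonneg (sq_nonneg _)⟩
  have hB0 : 0 < B := by
    have : (0 : ℤ) < B := by
      rw [hB]
      positivity
    exact_mod_cast this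
  set κ := gw (r := r) 0 (fun γ => if γ.2 = 5 then 1 else 0) 0 with hκ
  obtain ⟨y, hy⟩ : (2 : ℤ) ∣ (Pw (om κ)).eval 1 - (Pw (om κ)).eval (-1) := by
    simpa using sub_dvd_eval_sub 1 (-1) (Pw (om κ))
  set f := (Pw (om κ)).eval (-1) with hf
  obtain ⟨P₀, P₁, P₂, P₃, hP⟩ := Bf_expand
    (om κ + (X : ℤ[X]) • (C (-y) • Pi.single (c0 r) 1 + C (1 - f - y) • Pi.single (c1 r) 1))
    ((X : ℤ[X]) • (C ((N * B : ℕ) : ℤ) • Pi.single (c0 r) 1 +
      C ((3 * N * B : ℕ) : ℤ) • Pi.single (c1 r) 1))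
    ((X : ℤ[X]) • C ((4 * N * B ^ 2 : ℕ) : ℤ) • cw σ)
  let T : ℤ → ℤ[X] := fun t =>
    C (4 * N * b₀ * b₁ ^ 2 * t * (1 + N * B * t)) * (X * (1 - X) * U₀) +
      C ((1 + 2 * N * B * t) ^ 2 * (4 * N * b₀ ^ 2 * b₁ * t * (1 + N * B * t))) * (X ^ 2 * U₁)
  obtain ⟨V₁, V₂, V₃, hV⟩ : ∃ V₁ V₂ V₃ : ℤ[X], ∀ t : ℤ, T t =
      C (t ^ 4) * (C (16 * N ^ 4 * B ^ 3 * b₀ ^ 2 * b₁) * (X ^ 2 * U₁)) + C (t ^ 3) * V₃ +
        C (t ^ 2) * V₂ + C t * V₁ := by
    refine ⟨C (4 * N * b₀ * b₁ ^ 2) * (X * (1 - X) * U₀) + C (4 * N * b₀ ^ 2 * b₁) * (X ^ 2 * U₁),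
      C (4 * N ^ 2 * B * b₀ * b₁ ^ 2) * (X * (1 - X) * U₀) +
        C (20 * N ^ 2 * B * b₀ ^ 2 * b₁) * (X ^ 2 * U₁),
      C (32 * N ^ 3 * B ^ 2 * b₀ ^ 2 * b₁) * (X ^ 2 * U₁), fun t => ?_⟩
    simp only [T, map_mul, map_add, map_pow, map_one, map_ofNat]
    ring
  have hU₁c : ∀ k, (U₁.coeff k : ℝ) = b₁ * (2 * (Q.eval 1 : ℚ))⁻¹ * (Q.coeff k : ℚ) := by
    intro k
    have := congrArg (fun P => ((coeff P k : ℚ) : ℝ)) hU₁
    simpa [mul_assoc] using this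
  have hB' : (B : ℝ) = (b₀ * b₁) ^ 2 := by exact_mod_cast hB
  have hQ1' : ((Q.eval 1 : ℚ) : ℝ) ≠ 0 := by exact_mod_cast hQ1
  -- asymptotic bound
  have key : ∀ (k : ℕ) (u : ℤ), |(N : ℝ) ^ 2 / (Q.eval 1 : ℚ) * (Q.coeff k : ℚ) -
      ((Bf (cw σ) (cw σ)).coeff k - u)| < 1 → ∀ᶠ t : ℕ in atTop,
      |(C ((t : ℤ) ^ 4) * Bf ((X : ℤ[X]) • C ((4 * N * B ^ 2 : ℕ) : ℤ) • cw σ)
          ((X : ℤ[X]) • C ((4 * N * B ^ 2 : ℕ) : ℤ) • cw σ) + C ((t : ℤ) ^ 3) * P₃ +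
          C ((t : ℤ) ^ 2) * P₂ + C (t : ℤ) * P₁ + P₀).coeff (k + 2) - 2 * (T t).coeff (k + 2) -
          u * ((4 * N * B ^ 2 * t ^ 2 : ℕ) : ℤ) ^ 2| ≤
        2 * ((4 * N * B ^ 2 * t ^ 2 : ℕ) : ℤ) ^ 2 := by
    intro k u hk
    have e1 : Bf ((X : ℤ[X]) • C ((4 * N * B ^ 2 : ℕ) : ℤ) • cw σ)
        ((X : ℤ[X]) • C ((4 * N * B ^ 2 : ℕ) : ℤ) • cw σ) =
        C (((4 * N * B ^ 2 : ℕ) : ℤ) ^ 2) * (X ^ 2 * Bf (cw σ) (cw σ)) := by
      simp only [map_smul, LinearMap.smul_apply, smul_eq_mul, map_pow]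
      ring
    have hpos : (0 : ℝ) < (4 * N * B ^ 2) ^ 2 := by positivity
    filter_upwards [eventually_abs_le
      ((4 * N * B ^ 2) ^ 2 * (((Bf (cw σ) (cw σ)).coeff k - u) -
        (N : ℝ) ^ 2 / (Q.eval 1 : ℚ) * (Q.coeff k : ℚ)))
      (P₃.coeff (k + 2) - 2 * V₃.coeff (k + 2)) (P₂.coeff (k + 2) - 2 * V₂.coeff (k + 2))
      (P₁.coeff (k + 2) - 2 * V₁.coeff (k + 2)) (P₀.coeff (k + 2)) (2 * (4 * N * B ^ 2) ^ 2) (by
        rw [abs_mul, abs_of_pos hpos, abs_sub_comm]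
        nlinarith)] with t ht
    rw [e1, hV]
    simp only [coeff_add, coeff_C_mul, coeff_X_pow_mul]
    rw [← Int.cast_le (R := ℝ)]
    push_cast
    refine le_of_eq_of_le ?_ (le_of_le_of_eq ht (by ring))
    refine congrArg abs ?_
    · rw [hU₁c]
      push_cast
      have e2 : (b₀ : ℝ) ^ 2 * b₁ * b₁ = B := by
        rw [hB']
        ring
      rw [div_eq_mul_inv, mul_inv]
      linear_combination (-16 * t ^ 4 * N ^ 4 * B ^ 3 * ((Q.eval 1 : ℚ) : ℝ)⁻¹ *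
        (Q.coeff k : ℚ)) * e2
  obtain ⟨t, ht1, ht2, ht3⟩ := ((eventually_ge_atTop (1 + y.natAbs + f.natAbs)).and
    ((eventually_all.mpr fun a : Fin (r + 1) => key (2 * a + 1) 0 (by simpa using (h5 a).1)).and
      (eventually_all.mpr fun a : Fin (r + 1) => key (2 * a + 2) 6 (by
        simpa using (h5 a).2)))).exists
  have hNB : t ≤ N * B * t := Nat.le_mul_of_pos_left _ (Nat.mul_pos hN hB0)
  obtain ⟨x₀, hx₀⟩ : ∃ x₀ : ℕ, (x₀ : ℤ) = N * B * t - y :=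
    ⟨_, Int.toNat_of_nonneg (by
      have : ((t : ℕ) : ℤ) ≤ N * B * t := by exact_mod_cast hNB
      omega)⟩
  obtain ⟨x₁, hx₁⟩ : ∃ x₁ : ℕ, (x₁ : ℤ) = 1 + 3 * (N * B * t) - f - y :=
    ⟨_, Int.toNat_of_nonneg (by
      have : ((t : ℕ) : ℤ) ≤ N * B * t := by exact_mod_cast hNB
      omega)⟩
  set m := 4 * N * B ^ 2 * t ^ 2 with hm
  have ht0 : 0 < t := by omega
  have hw : m • ν + bw x₀ x₁ + gw (2 * m) (pp m) 0 = κ + (m • σ + bw x₀ x₁) := by
    rw [gw_split, hσ, smul_add]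
    abel
  have hom : om (m • ν + bw x₀ x₁ + gw (2 * m) (pp m) 0) =
      om κ + (X : ℤ[X]) • ((m : ℤ[X]) • cw σ + cw (bw x₀ x₁)) := by
    rw [hw, om, om, map_add, map_add, cw_nsmul, smul_add]
    exact (add_assoc _ _ _).symm
  have hPw : ∀ x : ℤ, (Pw (om (m • ν + bw x₀ x₁ + gw (2 * m) (pp m) 0))).eval x =
      (Pw (om κ)).eval x + x * (m * (Pw (cw σ)).eval x + (x₀ + x₁ * x)) := by
    intro x
    rw [hom]
    simp [Pw_bw]
    ring
  set n : ℤ := (1 + 2 * N * B * t) ^ 2 with hn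
  have hn1 : (n : ℚ) - 1 ≠ 0 := by
    have : (1 : ℤ) < n := by
      have : (0 : ℤ) < N * B * t := by positivity
      nlinarith
    have : (1 : ℚ) < n := by exact_mod_cast this
    linarith
  have hTq : (T t).map (algebraMap ℤ ℚ) = C ((n - 1) / Q.eval 0) * (X * (1 - X) * Q) +
      C (n * (n - 1) / (2 * Q.eval 1)) * (X ^ 2 * Q) := by
    have hBq : (B : ℚ) = (b₀ * b₁) ^ 2 := by exact_mod_cast hB
    have e1 : (n : ℚ) - 1 = 4 * N * (b₀ * b₁) ^ 2 * t * (1 + N * B * t) := by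
      rw [hn, ← hBq]
      push_cast
      ring
    simp only [T, Polynomial.map_add, Polynomial.map_mul, Polynomial.map_pow, map_C, map_X,
      Polynomial.map_sub, Polynomial.map_one, hU₀, hU₁, ← hn, zsmul_eq_mul, ← C_eq_intCast,
      e1, div_eq_mul_inv]
    simp only [eq_intCast, map_mul, map_add, map_pow, map_one, Int.cast_natCast, Int.cast_ofNat]
    ring
  have hTc : ∀ k, ((T t).coeff k : ℚ) = ((T t).map (algebraMap ℤ ℚ)).coeff k := fun k => by simp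
  have hTe : ∀ x : ℤ, (((T t).eval x : ℤ) : ℚ) = ((T t).map (algebraMap ℤ ℚ)).eval (x : ℚ) :=
    fun x => by
      have : (x : ℚ) = algebraMap ℤ ℚ x := rfl
      rw [this, eval_map, eval₂_at_apply]
      rfl
  have hom' : om (m • ν + bw x₀ x₁ + gw (2 * m) (pp m) 0) =
      om κ + (X : ℤ[X]) • (C (-y) • Pi.single (c0 r) 1 + C (1 - f - y) • Pi.single (c1 r) 1) +
      C (t : ℤ) • ((X : ℤ[X]) • (C ((N * B : ℕ) : ℤ) • Pi.single (c0 r) 1 +
        C ((3 * N * B : ℕ) : ℤ) • Pi.single (c1 r) 1)) +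
      C (t : ℤ) ^ 2 • ((X : ℤ[X]) • C ((4 * N * B ^ 2 : ℕ) : ℤ) • cw σ) := by
    have e0 : (x₀ : ℤ[X]) = N * B * t - y := by
      rw [← Int.cast_natCast, hx₀]
      simp
    have e1 : (x₁ : ℤ[X]) = 1 + 3 * (N * B * t) - f - y := by
      rw [← Int.cast_natCast, hx₁]
      simp
    rw [hom, cw_bw, e0, e1, hm]
    simp only [eq_intCast]
    push_cast
    module
  have hcoef : ∀ (L k : ℕ), ((L : ℤ[X]) * (1 - X ^ 2)).coeff (k + 3) = 0 := by
    intro L k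
    rw [← C_eq_natCast, coeff_C_mul, coeff_sub, coeff_X_pow, coeff_one, if_neg (by omega),
      if_neg (by omega)]
    simp
  have hQm : Q.eval (-1) = 0 := by simp [hQ]
  have hQd : Q.natDegree ≤ 2 * r + 2 := by
    refine natDegree_mul_le.trans ?_
    have e1 : (X + 1 : ℚ[X]).natDegree ≤ 1 := by compute_degree
    have e2 : (∏ i, (X - C (ρ i))).natDegree = 2 * r + 1 := by
      rw [natDegree_prod_of_monic _ _ fun i _ => monic_X_sub_C _]
      simp
    omega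
  have g0 : (T t).coeff 0 = 0 := by simp [T]
  have g1 : (T t).coeff 1 + 1 = n := by
    rw [← Int.cast_inj (α := ℚ), Int.cast_add, hTc, hTq, mul_assoc X, sq, mul_assoc X]
    simp only [coeff_add, coeff_C_mul, coeff_X_mul, mul_coeff_zero, coeff_X_zero, coeff_sub,
      coeff_one_zero, coeff_zero_eq_eval_zero Q]
    field_simp
    simp
    ring
  have g2 : ∀ k, 2 * (r + 2) < k → (T t).coeff k = 0 := by
    intro k hk
    rw [← Int.cast_inj (α := ℚ), hTc, hTq, Int.cast_zero]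
    refine coeff_eq_zero_of_natDegree_lt (lt_of_le_of_lt ?_ hk)
    refine natDegree_add_le_of_degree_le (natDegree_C_mul_le _ _ |>.trans ?_)
      (natDegree_C_mul_le _ _ |>.trans ?_)
    · refine natDegree_mul_le.trans ?_
      have e1 : (X * (1 - X) : ℚ[X]).natDegree ≤ 2 := by compute_degree
      omega
    · refine natDegree_mul_le.trans ?_
      have e1 : (X ^ 2 : ℚ[X]).natDegree ≤ 2 := by compute_degree
      omega
  have g3 : 2 * (T t).eval 1 + n = n ^ 2 := by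
    rw [← Int.cast_inj (α := ℚ), Int.cast_add, Int.cast_mul, hTe, hTq]
    simp only [eval_add, eval_mul, eval_C, eval_X, eval_sub, eval_one, eval_pow, Int.cast_one]
    field_simp
    push_cast
    ring
  have g4 : (T t).eval (-1) = 0 := by
    rw [← Int.cast_inj (α := ℚ), hTe, hTq]
    simp [hQm]
  obtain ⟨n', G, hG1, hG2, hG3⟩ := exists_tree_of_bounds (m • ν + bw x₀ x₁)
    (fun g i => by simp [h1, bw_inr]) (fun x hx => by simp [h2 x hx, bw_top _ _ x hx]) m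
    (by positivity) (T t) _ n rfl
    (by
      rw [hPw, h3, hx₀, hx₁, hn, hm]
      push_cast
      linear_combination -hy)
    (by
      rw [hPw, h4, hx₀, hx₁, hn]
      ring)
    (fun a => by
      rw [coeff_add, hcoef, add_zero, hom', hP]
      simpa using ht2 a)
    (fun a => by
      rw [coeff_add, hcoef _ (2 * a + 1), add_zero, hom', hP]
      exact ht3 a) g0 g1 g2 g3 g4
  · refine ⟨n', G, hG1, hG2, fun z hz => ?_⟩
    rw [hG3, ← aeval_map_algebraMap ℚ, hTq, hQ] at hz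
    rw [← hQ] at hz
    set α := ((n : ℚ) - 1) / Q.eval 0 with hα
    set β := (n : ℚ) * (n - 1) / (2 * Q.eval 1)
    have hα0 : α ≠ 0 := div_ne_zero hn1 hQ0
    have h6 : z * (α + (β - α : ℚ) * z) * aeval z Q = 0 := by
      rw [← hz]
      simp only [map_add, map_mul, map_sub, map_pow, aeval_C, aeval_X, map_one, eq_ratCast,
        Rat.cast_sub]
      ring
    rcases mul_eq_zero.mp h6 with h7 | h7
    · rcases mul_eq_zero.mp h7 with h8 | h8
      · exact ⟨0, by simpa using h8⟩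
      · have h9 : ((β - α : ℚ) : ℂ) ≠ 0 := by
          intro h
          rw [h, zero_mul, add_zero] at h8
          exact hα0 (by exact_mod_cast h8)
        refine ⟨-α / (β - α), ?_⟩
        rw [Rat.cast_div, eq_div_iff h9, Rat.cast_neg]
        linear_combination h8
    · simp only [hQ, map_mul, map_add, map_prod, map_sub, aeval_X, aeval_C, map_one, mul_eq_zero,
        prod_eq_zero_iff, eq_ratCast] at h7
      rcases h7 with h8 | ⟨i, -, h8⟩
      · exact ⟨-1, by simpa using eq_neg_of_add_eq_zero_left h8⟩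
      · exact ⟨ρ i, sub_eq_zero.mp h8⟩

end Pool.Agent.P.MP_96b1db_co
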