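import Mathlib

/-! Real-rooted polynomials and their approximation by rational-rooted ones. -/

open Polynomial Finset Filter Topology

namespace Pool.Agent.P.MP_96b1db_co

theorem exists_sign_far (P : ℝ[X]) (d : ℕ) (hd : 0 < d) (h1 : P.natDegree ≤ d)
    (h2 : 0 < P.coeff d) (a : ℝ) : ∃ ξ < a, 0 < (-1) ^ d * P.eval ξ := by
  have h3 : P.natDegree = d := natDegree_eq_of_le_of_coeff_ne_zero h1 h2.ne'
  have h4 : (C ((-1 : ℝ) ^ d) * P.comp (-X)).natDegree = d := by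
    rw [natDegree_C_mul (by simp), natDegree_comp, h3]
    simp
  have h5 : 0 < (C ((-1 : ℝ) ^ d) * P.comp (-X)).leadingCoeff := by
    rw [leadingCoeff_mul, leadingCoeff_C, comp_neg_X_leadingCoeff_eq, h3, ← mul_assoc, ← mul_pow,
      leadingCoeff, h3]
    simpa using h2
  have h6 := tendsto_atTop_of_leadingCoeff_nonneg _ (natDegree_pos_iff_degree_pos.mp (hd.trans_eq h4.symm))
    h5.le
  obtain ⟨x, hx1, hx2⟩ := ((h6.eventually_gt_atTop 0).and (eventually_gt_atTop (-a))).exists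
  exact ⟨-x, by linarith, by simpa using hx1⟩

theorem exists_scale {ι : Type} (s : Finset ι) (a b c : ι → ℝ) (ha : ∀ i ∈ s, 0 < a i) :
    ∃ S : ℕ, 0 < S ∧ ∀ i ∈ s, 0 < a i * S ^ 2 + b i * S + c i := by
  have h : ∀ i ∈ s, ∀ᶠ S : ℕ in atTop, 0 < a i * S ^ 2 + b i * S + c i := by
    intro i hi
    have h1 := tendsto_atTop_of_leadingCoeff_nonneg (C (a i) * X ^ 2 + C (b i) * X + C (c i))
      (by rw [degree_quadratic (ha i hi).ne']; norm_num)
      (by rw [leadingCoeff_quadratic (ha i hi).ne']; exact (ha i hi).le)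
    have h2 := (h1.comp tendsto_natCast_atTop_atTop).eventually_gt_atTop 0
    simpa using h2
  exact ((eventually_gt_atTop 0).and ((eventually_all_finset s).mpr h)).exists

theorem exists_factor (K : ℝ[X]) (m : ℕ) (hK : K.natDegree ≤ m + 1) (h1 : K.eval (-1) = 0)
    (ξ : ℕ → ℝ) (hξ : ∀ i < m, ξ (i + 1) < ξ i)
    (hs : ∀ i ≤ m, 0 < (-1) ^ i * K.eval (ξ i) * (1 + ξ i)) :
    ∃ (c : ℝ) (ρ : Fin m → ℝ), K = C c * ((X + 1) * ∏ i, (X - C (ρ i))) := by
  obtain ⟨Q, hQ⟩ := dvd_iff_isRoot.mpr h1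
  have hQ' : K = (X + 1) * Q := by simpa using hQ
  have hs' : ∀ i ≤ m, 0 < (-1) ^ i * Q.eval (ξ i) := by
    intro i hi
    have := hs i hi
    rw [hQ'] at this
    simp only [eval_mul, eval_add, eval_X, eval_one] at this
    by_contra hcon
    nlinarith [sq_nonneg (1 + ξ i)]
  have hQ0 : Q ≠ 0 := by
    intro h
    simpa [h] using hs' 0 (Nat.zero_le _)
  have hQd : Q.natDegree ≤ m := by
    have h2 : (X + 1 : ℝ[X]).natDegree = 1 := by simpa using natDegree_X_add_C (1 : ℝ)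
    rw [hQ', natDegree_mul (by
      intro h
      simp [h] at h2) hQ0, h2] at hK
    omega
  have hroot : ∀ i : Fin m, ∃ r, ξ (i + 1) < r ∧ r < ξ i ∧ Q.eval r = 0 := by
    intro i
    have a1 := hs' i i.2.le
    have a2 := hs' (i + 1) i.2
    have hc : ContinuousOn (fun x => (-1) ^ (i : ℕ) * Q.eval x) (Set.Icc (ξ (i + 1)) (ξ i)) :=
      (continuous_const.mul Q.continuous).continuousOn
    obtain ⟨r, hr, hr0⟩ := intermediate_value_Ioo (hξ i i.2).le hc
      (show (0 : ℝ) ∈ Set.Ioo _ _ from ⟨by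
        rw [pow_succ] at a2
        linarith, a1⟩)
    exact ⟨r, hr.1, hr.2, by simpa using hr0⟩
  choose ρ hρ1 hρ2 hρ3 using hroot
  have hanti : ∀ i j, i ≤ j → j ≤ m → ξ j ≤ ξ i := by
    intro i j hij
    induction j, hij using Nat.le_induction with
    | base => exact fun _ => le_rfl
    | succ j _ ih => exact fun hj => (hξ j hj).le.trans (ih (by omega))
  have hinj : Function.Injective ρ := by
    have : StrictAnti ρ := fun i j hij =>
      ((hρ2 j).trans_le (hanti _ _ hij j.2.le)).trans (hρ1 i)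
    exact this.injective
  obtain ⟨s, hs⟩ : ∏ i, (X - C (ρ i)) ∣ Q :=
    prod_dvd_of_coprime (fun i _ j _ hij => pairwise_coprime_X_sub_C hinj hij)
      fun i _ => dvd_iff_isRoot.mpr (hρ3 i)
  have hs0 : s ≠ 0 := by
    intro h
    simp [h] at hs
    exact hQ0 hs
  have hm : (∏ i, (X - C (ρ i))).Monic := monic_prod_of_monic _ _ fun i _ => monic_X_sub_C _
  have hd : s.natDegree = 0 := by
    rw [hs, natDegree_mul hm.ne_zero hs0, natDegree_finsetProd_X_sub_C_eq_card] at hQd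
    simp only [card_univ, Fintype.card_fin] at hQd
    omega
  refine ⟨s.coeff 0, ρ, ?_⟩
  rw [hQ', hs, ← eq_C_of_natDegree_eq_zero hd]
  ring

theorem continuous_coeff_prod {m : ℕ} (s : Finset (Fin m)) (P : ℝ[X]) (k : ℕ) :
    Continuous fun ρ : Fin m → ℝ => (P * ∏ i ∈ s, (X - C (ρ i))).coeff k := by
  induction s using Finset.induction_on generalizing k with
  | empty => simpa using continuous_const
  | insert a s ha ih =>
    simp only [prod_insert ha, mul_left_comm P]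
    simp only [sub_mul, coeff_sub, coeff_C_mul]
    refine Continuous.sub ?_ ((continuous_apply a).mul (ih k))
    cases k with
    | zero => simpa using continuous_const
    | succ k => simpa only [coeff_X_mul] using ih k

theorem exists_approx {m : ℕ} (K : ℝ[X]) (c : ℝ) (ρ : Fin m → ℝ)
    (hK : K = C c * ((X + 1) * ∏ i, (X - C (ρ i)))) (h0 : K.eval 0 ≠ 0) (h1 : K.eval 1 ≠ 0)
    (N : ℕ) : ∃ r : Fin m → ℚ,
      let Q : ℚ[X] := (X + 1) * ∏ i, (X - C (r i))
      Q.eval 0 ≠ 0 ∧ Q.eval 1 ≠ 0 ∧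
        ∀ k ≤ N, |K.eval 1 / (Q.eval 1 : ℚ) * (Q.coeff k : ℚ) - K.coeff k| < 1 := by
  let F : (Fin m → ℝ) → ℝ[X] := fun ρ => (X + 1) * ∏ i, (X - C (ρ i))
  have hev : ∀ a : ℝ, Continuous fun ρ => (F ρ).eval a := by
    intro a
    simp only [F, eval_mul, eval_prod, eval_sub, eval_X, eval_C]
    fun_prop
  have a0 : (F ρ).eval 0 ≠ 0 := fun h => h0 (by rw [hK, eval_mul, h, mul_zero])
  have a1 : (F ρ).eval 1 ≠ 0 := fun h => h1 (by rw [hK, eval_mul, h, mul_zero])
  have e0 := (hev 0).continuousAt.eventually_ne a0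
  have e1 := (hev 1).continuousAt.eventually_ne a1
  have e2 : ∀ k ∈ range (N + 1), ∀ᶠ ρ' in 𝓝 ρ,
      |K.eval 1 / (F ρ').eval 1 * (F ρ').coeff k - K.coeff k| < 1 := by
    intro k _
    have hc : ContinuousAt (fun ρ' => |K.eval 1 / (F ρ').eval 1 * (F ρ').coeff k - K.coeff k|) ρ :=
      (((continuousAt_const.div (hev 1).continuousAt a1).mul
        (continuous_coeff_prod univ (X + 1) k).continuousAt).sub continuousAt_const).abs
    refine hc.eventually_lt_const ?_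
    have h2 : K.eval 1 / (F ρ).eval 1 = c := by
      rw [div_eq_iff a1, hK, eval_mul, eval_C]
    beta_reduce
    rw [h2]
    conv_lhs => rw [hK, coeff_C_mul]
    simp [F]
  have hd : DenseRange (Pi.map fun (_ : Fin m) (q : ℚ) => (q : ℝ)) :=
    DenseRange.piMap fun _ => Rat.denseRange_cast
  obtain ⟨r, hr0, hr1, hr2⟩ :=
    hd.mem_nhds (e0.and (e1.and ((eventually_all_finset _).mpr e2)))
  have hmap : F (Pi.map (fun (_ : Fin m) (q : ℚ) => (q : ℝ)) r) =
      ((X + 1) * ∏ i, (X - C (r i)) : ℚ[X]).map (Rat.castHom ℝ) := by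
    simp [F, Polynomial.map_prod]
  have hev' : ∀ (Q : ℚ[X]) (a : ℚ), (Q.map (Rat.castHom ℝ)).eval (a : ℝ) = (Q.eval a : ℚ) :=
    fun Q a => by rw [eval_map, ← Rat.coe_castHom, eval₂_at_apply]
  rw [hmap] at hr0 hr1 hr2
  refine ⟨r, ?_, ?_, fun k hk => ?_⟩
  · have := hev' ((X + 1) * ∏ i, (X - C (r i))) 0
    rw [Rat.cast_zero] at this
    rw [this] at hr0
    exact_mod_cast hr0
  · have := hev' ((X + 1) * ∏ i, (X - C (r i))) 1
    rw [Rat.cast_one] at this
    rw [this] at hr1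
    exact_mod_cast hr1
  · have h3 := hr2 k (mem_range.mpr (by omega))
    have := hev' ((X + 1) * ∏ i, (X - C (r i))) 1
    rw [Rat.cast_one] at this
    rwa [this, coeff_map] at h3

theorem eventually_abs_le (e a b c d : ℝ) (u : ℝ) (h : |e| < u) :
    ∀ᶠ t : ℕ in atTop, |e * t ^ 4 + a * t ^ 3 + b * t ^ 2 + c * t + d| ≤ u * t ^ 4 := by
  have h1 : Tendsto (fun t : ℕ => (t : ℝ)⁻¹) atTop (𝓝 0) := tendsto_inv_atTop_nhds_zero_nat
  have h2 : Tendsto (fun t : ℕ => |e + a * (t : ℝ)⁻¹ + b * (t : ℝ)⁻¹ ^ 2 + c * (t : ℝ)⁻¹ ^ 3 +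
      d * (t : ℝ)⁻¹ ^ 4|) atTop (𝓝 |e + a * 0 + b * 0 ^ 2 + c * 0 ^ 3 + d * 0 ^ 4|) :=
    ((((tendsto_const_nhds.add (h1.const_mul a)).add ((h1.pow 2).const_mul b)).add
      ((h1.pow 3).const_mul c)).add ((h1.pow 4).const_mul d)).abs
  filter_upwards [h2.eventually_lt_const (u := u) (by simpa using h), eventually_gt_atTop 0]
    with t ht ht0
  have h3 : (0 : ℝ) < t := by exact_mod_cast ht0
  have h4 : e * t ^ 4 + a * t ^ 3 + b * t ^ 2 + c * t + d = (e + a * (t : ℝ)⁻¹ +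
      b * (t : ℝ)⁻¹ ^ 2 + c * (t : ℝ)⁻¹ ^ 3 + d * (t : ℝ)⁻¹ ^ 4) * t ^ 4 := by
    field_simp
  rw [h4, abs_mul, abs_of_pos (by positivity : (0 : ℝ) < t ^ 4)]
  exact mul_le_mul_of_nonneg_right ht.le (by positivity)

end Pool.Agent.P.MP_96b1db_co
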