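import Pool.Agent.P.MP_96b1db_co.Spider
import Pool.Agent.P.MP_96b1db_co.Roots

/-! Weighted paths whose distance enumerator has alternating signs. -/

open Polynomial Finset

namespace Pool.Agent.P.MP_96b1db_co

variable {Λ : Type} [DecidableEq Λ] [Fintype Λ] {R : ℕ}

/-- The depth enumerator. -/
noncomputable def Pw : (Λ × Fin (R + 1) → ℤ[X]) →ₗ[ℤ[X]] ℤ[X] where
  toFun a := ∑ p, a p * X ^ (p.2 : ℕ)
  map_add' a b := by simp [add_mul, sum_add_distrib]
  map_smul' c a := by simp [mul_sum, mul_assoc]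

omit [DecidableEq Λ] in
theorem Pw_apply (a : Λ × Fin (R + 1) → ℤ[X]) : Pw a = ∑ p, a p * X ^ (p.2 : ℕ) := rfl

theorem Pw_single (p : Λ × Fin (R + 1)) : Pw (Pi.single p (1 : ℤ[X])) = X ^ (p.2 : ℕ) := by
  rw [Pw_apply, sum_eq_single p] <;> simp +contextual

theorem eval_Bf (x : ℤ) (hx : x ^ 2 = 1) (a b : Λ × Fin (R + 1) → ℤ[X]) :
    (Bf a b).eval x = (Pw a).eval x * (Pw b).eval x := by
  have h : ∀ n : ℕ, x ^ n = x ^ (n % 2) := fun n => by
    conv_lhs => rw [← Nat.div_add_mod n 2, pow_add, pow_mul, hx, one_pow, one_mul]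
  simp only [Bf_apply, Pw_apply, eval_finsetSum, eval_mul, eval_pow, eval_X, sum_mul_sum]
  refine sum_congr rfl fun p _ => sum_congr rfl fun q _ => ?_
  rw [h (del p q), del_parity, ← h, pow_add]
  ring

omit [Fintype Λ] in
theorem cw_single (p : Λ × Fin (R + 1)) (n : ℕ) :
    cw (Pi.single p n) = (n : ℤ[X]) • (Pi.single p 1 : Λ × Fin (R + 1) → ℤ[X]) := by
  ext1 q
  by_cases h : q = p
  · subst h
    simp [cw]
  · simp [cw, h]

omit [Fintype Λ] [DecidableEq Λ] in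
theorem cw_nsmul (n : ℕ) (σ : Λ × Fin (R + 1) → ℕ) : cw (n • σ) = (n : ℤ[X]) • cw σ := by
  rw [map_nsmul, Nat.cast_smul_eq_nsmul]

theorem coeff_Bf_cw (σ τ : Λ × Fin (R + 1) → ℕ) (k : ℕ) :
    (Bf (cw σ) (cw τ)).coeff k = ∑ p, ∑ q, if k = del p q then ((σ p * τ q : ℕ) : ℤ) else 0 := by
  simp only [Bf_apply, finsetSum_coeff]
  refine sum_congr rfl fun p _ => sum_congr rfl fun q _ => ?_
  have : cw σ p * X ^ del p q * cw τ q = C ((σ p * τ q : ℕ) : ℤ) * X ^ del p q := by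
    simp only [cw, AddMonoidHom.coe_mk, ZeroHom.coe_mk, Nat.cast_mul, map_mul, map_natCast]
    ring
  rw [this, coeff_C_mul_X_pow]

theorem natDegree_Bf_cw (σ : Λ × Fin (R + 1) → ℕ) (d : ℕ)
    (h : ∀ p q, σ p ≠ 0 → σ q ≠ 0 → del p q ≤ d) : (Bf (cw σ) (cw σ)).natDegree ≤ d := by
  rw [natDegree_le_iff_coeff_eq_zero]
  intro k hk
  rw [coeff_Bf_cw]
  refine sum_eq_zero fun p _ => sum_eq_zero fun q _ => ?_
  split_ifs with h1
  · by_contra h2
    rw [Nat.cast_eq_zero, mul_eq_zero, not_or] at h2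
    have := h p q h2.1 h2.2
    omega
  · rfl

theorem coeff_Bf_cw_pos (σ : Λ × Fin (R + 1) → ℕ) (p q : Λ × Fin (R + 1)) (hp : σ p ≠ 0)
    (hq : σ q ≠ 0) : 0 < (Bf (cw σ) (cw σ)).coeff (del p q) := by
  rw [coeff_Bf_cw]
  refine sum_pos' (fun _ _ => sum_nonneg fun _ _ => by split_ifs <;> positivity)
    ⟨p, mem_univ _, sum_pos' (fun _ _ => by split_ifs <;> positivity) ⟨q, mem_univ _, ?_⟩⟩
  rw [if_pos rfl]
  positivity

theorem Bf_scale (S : ℕ) (σ τ : Λ × Fin (R + 1) → ℕ) :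
    Bf (cw (S • σ + τ)) (cw (S • σ + τ)) = Bf (cw σ) (cw σ) * S ^ 2 +
      2 * Bf (cw σ) (cw τ) * S + Bf (cw τ) (cw τ) := by
  simp only [map_add, cw_nsmul, map_smul, LinearMap.add_apply, LinearMap.smul_apply, smul_eq_mul,
    Bf_symm (cw τ) (cw σ)]
  ring

/-- Small perturbations keep the signs. -/
theorem exists_scale_sign (σ τ : Λ × Fin (R + 1) → ℕ) (U : ℤ[X]) (m : ℕ) (ξ : ℕ → ℝ)
    (h : ∀ i < m, 0 < (-1) ^ i * aeval (ξ i) (Bf (cw σ) (cw σ)) * (1 + ξ i)) :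
    ∃ S : ℕ, 0 < S ∧ ∀ i < m,
      0 < (-1) ^ i * aeval (ξ i) (Bf (cw (S • σ + τ)) (cw (S • σ + τ)) + U) * (1 + ξ i) := by
  obtain ⟨S, hS, h1⟩ := exists_scale (range m)
    (fun i => (-1) ^ i * aeval (ξ i) (Bf (cw σ) (cw σ)) * (1 + ξ i))
    (fun i => (-1) ^ i * aeval (ξ i) (2 * Bf (cw σ) (cw τ)) * (1 + ξ i))
    (fun i => (-1) ^ i * aeval (ξ i) (Bf (cw τ) (cw τ) + U) * (1 + ξ i))
    (fun i hi => h i (mem_range.mp hi))
  refine ⟨S, hS, fun i hi => (h1 i (mem_range.mpr hi)).trans_eq ?_⟩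
  rw [Bf_scale]
  simp only [map_add, map_mul, map_pow, map_natCast]
  ring

theorem exists_path (π : ℕ → Λ × Fin (R + 1)) (N : ℕ)
    (hπ : ∀ i ≤ N, ∀ j ≤ N, del (π i) (π j) = (i - j) + (j - i)) (m : ℕ) (hm : 1 ≤ m)
    (hN : m ≤ N) :
    ∃ (σ : Λ × Fin (R + 1) → ℕ) (ξ : ℕ → ℝ), (∀ p, σ p ≠ 0 → ∃ i ≤ m, p = π i) ∧ σ (π 0) ≠ 0 ∧
      (Pw (cw σ)).eval (-1) = 0 ∧ ξ 0 = 0 ∧ (∀ i, i + 1 < m → ξ (i + 1) < ξ i) ∧
      ∀ i < m, 0 < (-1) ^ i * aeval (ξ i) (Bf (cw σ) (cw σ)) * (1 + ξ i) := by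
  have hbal : ∀ i, i + 1 ≤ N →
      (Pw (cw (Pi.single (π i) 1 + Pi.single (π (i + 1)) 1))).eval (-1) = 0 := by
    intro i hi
    have h1 := del_parity (π i) (π (i + 1))
    rw [hπ i (by omega) _ hi] at h1
    simp only [map_add, cw_single, Nat.cast_one, one_smul, Pw_single, eval_add, eval_pow, eval_X]
    rcases Nat.even_or_odd (π i).2 with h | h
    · rw [h.neg_one_pow, Odd.neg_one_pow (by
        rw [Nat.odd_iff]
        rw [Nat.even_iff] at h
        omega)]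
      simp
    · rw [h.neg_one_pow, Even.neg_one_pow (by
        rw [Nat.even_iff]
        rw [Nat.odd_iff] at h
        omega)]
      simp
  have hsupp : ∀ i p, (Pi.single (π i) 1 + Pi.single (π (i + 1)) 1 : _ → ℕ) p ≠ 0 →
      p = π i ∨ p = π (i + 1) := by
    intro i p hp
    by_contra hcon
    push Not at hcon
    simp [hcon.1, hcon.2] at hp
  induction m, hm using Nat.le_induction with
  | base =>
    refine ⟨Pi.single (π 0) 1 + Pi.single (π 1) 1, fun _ => 0, fun p hp => ?_, by simp,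
      hbal 0 hN, rfl, fun i hi => by omega, fun i hi => ?_⟩
    · rcases hsupp 0 p hp with h | h
      · exact ⟨0, by omega, h⟩
      · exact ⟨1, by omega, h⟩
    · obtain rfl : i = 0 := by omega
      simp [cw_single, Bf_single, hπ 0 (by omega) 1 hN, hπ 1 hN 0 (by omega), del_self]
  | succ m hm ih =>
    obtain ⟨σ, ξ, h1, h2, h3, h4, h5, h6⟩ := ih (by omega)
    obtain ⟨S, hS, h7⟩ :=
      exists_scale_sign σ (Pi.single (π m) 1 + Pi.single (π (m + 1)) 1) 0 m ξ h6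
    simp only [add_zero] at h7
    set σ' := S • σ + (Pi.single (π m) 1 + Pi.single (π (m + 1)) 1) with hσ'
    have a1 : ∀ p, σ' p ≠ 0 → ∃ i ≤ m + 1, p = π i := by
      intro p hp
      by_cases h : σ p = 0
      · rcases hsupp m p (by simpa [hσ', h] using hp) with h | h
        · exact ⟨m, by omega, h⟩
        · exact ⟨m + 1, by omega, h⟩
      · obtain ⟨i, hi, h⟩ := h1 p h
        exact ⟨i, by omega, h⟩
    have a2 : σ' (π 0) ≠ 0 := by simp [hσ', h2, hS.ne']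
    have a3 : σ' (π (m + 1)) ≠ 0 := by simp [hσ']
    have a4 := coeff_Bf_cw_pos σ' _ _ a2 a3
    rw [hπ 0 (by omega) _ hN] at a4
    have a5 := natDegree_Bf_cw σ' (m + 1) (fun p q hp hq => by
      obtain ⟨i, hi, rfl⟩ := a1 p hp
      obtain ⟨j, hj, rfl⟩ := a1 q hq
      rw [hπ i (by omega) j (by omega)]
      omega)
    obtain ⟨x, hx1, hx2⟩ := exists_sign_far ((Bf (cw σ') (cw σ')).map (algebraMap ℤ ℝ)) (m + 1)
      (by omega) (natDegree_map_le.trans a5) (by simpa using a4) (min (-1) (ξ (m - 1)))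
    rw [lt_min_iff] at hx1
    refine ⟨σ', Function.update ξ m x, a1, a2, ?_, ?_, fun i hi => ?_, fun i hi => ?_⟩
    · rw [hσ', map_add, map_add, eval_add, hbal m hN, cw_nsmul, map_smul, smul_eq_mul, eval_mul,
        h3]
      simp
    · rw [Function.update_of_ne (by omega), h4]
    · rw [Function.update_of_ne (show i ≠ m by omega)]
      by_cases h : i + 1 = m
      · rw [h, Function.update_self]
        have : i = m - 1 := by omega
        rw [this]
        exact hx1.2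
      · rw [Function.update_of_ne h]
        exact h5 i (by omega)
    · by_cases h : i = m
      · rw [h, Function.update_self]
        rw [eval_map_algebraMap, pow_succ] at hx2
        nlinarith [hx1.1]
      · rw [Function.update_of_ne h]
        exact h7 i (by omega)

end Pool.Agent.P.MP_96b1db_co
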