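import Pool.Agent.P.MP_96b1db_co.TreeMetric

/-! Spiders with pendant leaves. -/

open Polynomial Finset

namespace Pool.Agent.P.MP_96b1db_co

variable {Λ : Type} [DecidableEq Λ] {R : ℕ}

/-- Distance between points of the spider; all points of depth zero are the centre. -/
def del (p q : Λ × Fin (R + 1)) : ℕ :=
  if p.1 = q.1 then (p.2 - q.2 : ℕ) + (q.2 - p.2 : ℕ) else p.2 + q.2

theorem del_symm (p q : Λ × Fin (R + 1)) : del p q = del q p := by
  unfold del
  by_cases h : p.1 = q.1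
  · rw [if_pos h, if_pos h.symm, add_comm]
  · rw [if_neg h, if_neg (Ne.symm h), add_comm]

theorem del_self (p : Λ × Fin (R + 1)) : del p p = 0 := by simp [del]

theorem del_tri (p q r : Λ × Fin (R + 1)) : del p r ≤ del p q + del q r := by
  unfold del
  by_cases h1 : p.1 = q.1 <;> by_cases h2 : q.1 = r.1 <;> by_cases h3 : p.1 = r.1 <;>
    simp only [if_pos, if_neg, h1, h2, h3, not_false_eq_true] <;>
    first | omega | (exact absurd (h1.trans h2) h3) | skip
  all_goals split_ifs <;> omega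

theorem del_le (p q : Λ × Fin (R + 1)) : del p q ≤ p.2 + q.2 := by
  unfold del
  split_ifs <;> omega

theorem del_parity (p q : Λ × Fin (R + 1)) : del p q % 2 = (p.2 + q.2) % 2 := by
  unfold del
  split_ifs <;> omega

variable (l₀ : Λ) (ℓ : Λ × Fin (R + 1) → ℕ)

/-- Vertices: skeleton points and leaves. -/
abbrev Vx : Type := {p : Λ × Fin (R + 1) // p.2 ≠ 0 ∨ p.1 = l₀} ⊕ (Σ p : Λ × Fin (R + 1), Fin (ℓ p))

variable {l₀ ℓ}

/-- The point of the spider a vertex sits at or hangs from. -/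
def pos : Vx l₀ ℓ → Λ × Fin (R + 1)
  | .inl p => p.1
  | .inr p => p.1

/-- One for leaves, zero for skeleton points. -/
def ex : Vx l₀ ℓ → ℕ
  | .inl _ => 0
  | .inr _ => 1

/-- The distance. -/
def fd (u v : Vx l₀ ℓ) : ℕ := if u = v then 0 else ex u + ex v + del (pos u) (pos v)

variable (l₀ ℓ) in
/-- The skeleton vertex at a point. -/
def nv (p : Λ × Fin (R + 1)) : Vx l₀ ℓ :=
  if h : p.2 = 0 then .inl ⟨(l₀, 0), Or.inr rfl⟩ else .inl ⟨p, Or.inl h⟩

omit [DecidableEq Λ] in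
theorem ex_nv (p : Λ × Fin (R + 1)) : ex (nv l₀ ℓ p) = 0 := by
  unfold nv
  split_ifs <;> rfl

theorem del_nv (p q : Λ × Fin (R + 1)) : del (pos (nv l₀ ℓ p)) q = del p q := by
  unfold nv
  split_ifs with h
  · have h' : (p.2 : ℕ) = 0 := by simp [h]
    simp only [pos, del, h', Fin.val_zero, Nat.zero_sub, Nat.sub_zero, zero_add, ite_self]
  · rfl

theorem eq_of_del {u v : Vx l₀ ℓ} (hu : ex u = 0) (hv : ex v = 0)
    (h : del (pos u) (pos v) = 0) : u = v := by
  rcases u with ⟨⟨a, i⟩, hi⟩ | u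
  · rcases v with ⟨⟨b, j⟩, hj⟩ | v
    · change (if a = b then (i - j : ℕ) + (j - i : ℕ) else i + j) = 0 at h
      simp only [Sum.inl.injEq, Subtype.mk.injEq, Prod.mk.injEq]
      have hi' : (i : ℕ) ≠ 0 ∨ a = l₀ := hi.imp_left fun h h' => h (Fin.ext h')
      have hj' : (j : ℕ) ≠ 0 ∨ b = l₀ := hj.imp_left fun h h' => h (Fin.ext h')
      by_cases hab : a = b
      · rw [if_pos hab] at h
        exact ⟨hab, Fin.ext (by omega)⟩
      · rw [if_neg hab] at h
        exact absurd ((hi'.resolve_left (by omega)).trans (hj'.resolve_left (by omega)).symm) hab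
    · simp [ex] at hv
  · simp [ex] at hu

omit [DecidableEq Λ] in
theorem ex_le (u : Vx l₀ ℓ) : ex u ≤ 1 := by
  rcases u with u | u <;> simp [ex]

theorem fd_of_skel {u : Vx l₀ ℓ} (hu : ex u = 0) (v : Vx l₀ ℓ) :
    fd u v = ex v + del (pos u) (pos v) := by
  unfold fd
  split_ifs with h
  · rw [← h, hu, del_self]
  · rw [hu, zero_add]

theorem exists_step (p q : Λ × Fin (R + 1)) (h : del p q ≠ 0) :
    ∃ p', del p p' = 1 ∧ del p' q + 1 = del p q := by
  obtain ⟨a, i⟩ := p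
  obtain ⟨b, j⟩ := q
  have hj := j.2
  by_cases h1 : a = b ∧ (i : ℕ) < j
  · refine ⟨(a, ⟨i + 1, by omega⟩), ?_, ?_⟩
    · simp [del]
    · simp only [del, if_pos h1.1]
      omega
  by_cases h2 : (i : ℕ) = 0
  · have hab : a ≠ b := by
      intro hab
      have : ¬ (i : ℕ) < j := fun h3 => h1 ⟨hab, h3⟩
      simp only [del, if_pos hab] at h
      omega
    simp only [del, if_neg hab] at h
    refine ⟨(b, ⟨1, by omega⟩), ?_, ?_⟩
    · simp [del, hab, h2]
    · simp only [del, if_neg hab, if_true]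
      omega
  · refine ⟨(a, ⟨i - 1, by omega⟩), ?_, ?_⟩
    · simp only [del, if_true]
      omega
    · simp only [del] at h ⊢
      split_ifs at h ⊢ with hab
      · have : ¬ (i : ℕ) < j := fun h3 => h1 ⟨hab, h3⟩
        omega
      · omega

theorem treeMetric_fd : TreeMetric (fd (l₀ := l₀) (ℓ := ℓ)) where
  symm u v := by
    unfold fd
    by_cases h : u = v
    · rw [if_pos h, if_pos h.symm]
    · rw [if_neg h, if_neg (Ne.symm h), del_symm, add_comm (ex u)]
  zero u v := by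
    unfold fd
    split_ifs with h
    · simp [h]
    · simp only [h, iff_false]
      intro h1
      exact h (eq_of_del (by omega) (by omega) (by omega))
  tri u v w := by
    have := del_tri (pos u) (pos v) (pos w)
    unfold fd
    by_cases h1 : u = v
    · subst h1
      simp
    by_cases h2 : v = w
    · subst h2
      simp
    rw [if_neg h1, if_neg h2]
    split_ifs <;> omega
  geod u v k h := by
    have huv : u ≠ v := by
      intro h1
      simp [fd, h1] at h
    rw [fd, if_neg huv] at h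
    by_cases hu : ex u = 0
    · by_cases h0 : del (pos u) (pos v) = 0
      · have := ex_le v
        refine ⟨v, by rw [fd, if_neg huv]; omega, ?_⟩
        rw [fd, if_pos rfl]
        omega
      · obtain ⟨p', h1, h2⟩ := exists_step _ _ h0
        refine ⟨nv l₀ ℓ p', ?_, ?_⟩
        · rw [fd_of_skel hu, ex_nv, del_symm, del_nv, del_symm, h1]
        · rw [fd_of_skel (ex_nv _), del_nv]
          omega
    · have := ex_le u
      refine ⟨nv l₀ ℓ (pos u), ?_, ?_⟩
      · have h1 : u ≠ nv l₀ ℓ (pos u) := fun h1 => hu (by rw [h1, ex_nv])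
        rw [fd, if_neg h1, ex_nv, del_symm, del_nv, del_self]
        omega
      · rw [fd_of_skel (ex_nv _), del_nv]
        omega
  par := by
    refine ⟨nv l₀ ℓ (l₀, 0), fun u => if ex u = 0 then
      nv l₀ ℓ ((pos u).1, ⟨(pos u).2 - 1, by have := (pos u).2.2; omega⟩) else nv l₀ ℓ (pos u),
      fun u v h => ?_⟩
    have huv : u ≠ v := by
      intro h1
      simp [fd, h1] at h
    rw [fd, if_neg huv] at h
    have key : ∀ u v : Vx l₀ ℓ, ex u = 1 → ex v = 0 → del (pos u) (pos v) = 0 →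
        u ≠ nv l₀ ℓ (l₀, 0) ∧ v = nv l₀ ℓ (pos u) := fun u v hu hv h =>
      ⟨fun h1 => by rw [h1, ex_nv] at hu; omega,
        (eq_of_del (ex_nv _) hv (by rw [del_nv, h])).symm⟩
    have key2 : ∀ u v : Vx l₀ ℓ, ex v = 0 → del (pos u) (pos v) = 1 →
        ((pos v).2 : ℕ) < (pos u).2 → u ≠ nv l₀ ℓ (l₀, 0) ∧ v = nv l₀ ℓ ((pos u).1,
          ⟨(pos u).2 - 1, by have := (pos u).2.2; omega⟩) := fun u v hv h hlt =>
      ⟨fun h1 => by
        rw [h1] at hlt
        simp [nv, pos] at hlt,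
      (eq_of_del (ex_nv _) hv (by
        rw [del_nv]
        simp only [del] at h ⊢
        split_ifs at h ⊢ <;> omega)).symm⟩
    by_cases hu : ex u = 0
    · by_cases hv : ex v = 0
      · have hp := del_parity (pos u) (pos v)
        rcases lt_or_gt_of_ne (show ((pos v).2 : ℕ) ≠ (pos u).2 by omega) with h1 | h1
        · left
          simpa [hu] using key2 u v hv (by omega) h1
        · right
          simpa [hv] using key2 v u hu (by rw [del_symm]; omega) h1
      · right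
        simpa [hv] using key v u (by omega) hu (by rw [del_symm]; omega)
    · left
      simpa [hu] using key u v (by omega) (by omega) (by omega)

variable [Fintype Λ]

/-- The distance enumerator as a bilinear form on weights. -/
noncomputable def Bf : LinearMap.BilinForm ℤ[X] (Λ × Fin (R + 1) → ℤ[X]) :=
  Matrix.toBilin' (Matrix.of fun p q => X ^ del p q)

theorem Bf_apply (a b : Λ × Fin (R + 1) → ℤ[X]) :
    Bf a b = ∑ p, ∑ q, a p * X ^ del p q * b q := Matrix.toBilin'_apply _ _ _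

theorem Bf_symm (a b : Λ × Fin (R + 1) → ℤ[X]) : Bf a b = Bf b a := by
  rw [Bf_apply, Bf_apply, sum_comm]
  refine sum_congr rfl fun p _ => sum_congr rfl fun q _ => ?_
  rw [del_symm]
  ring

theorem Bf_single (p q : Λ × Fin (R + 1)) :
    Bf (Pi.single p 1) (Pi.single q 1) = (X : ℤ[X]) ^ del p q := Matrix.toBilin'_single _ _ _

variable (l₀) in
/-- Indicator of the skeleton. -/
noncomputable def skel : Λ × Fin (R + 1) → ℤ[X] := fun p => if p.2 ≠ 0 ∨ p.1 = l₀ then 1 else 0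

/-- Weights as constant polynomials. -/
noncomputable def cw : (Λ × Fin (R + 1) → ℕ) →+ (Λ × Fin (R + 1) → ℤ[X]) where
  toFun ℓ p := ℓ p
  map_zero' := by
    ext1 p
    simp
  map_add' a b := by
    ext1 p
    simp

theorem sum_vx {M : Type} [CommRing M] (φ : Λ × Fin (R + 1) → M) (x : M) :
    ∑ u : Vx l₀ ℓ, x ^ ex u * φ (pos u) =
      ∑ p, ((if p.2 ≠ 0 ∨ p.1 = l₀ then 1 else 0) + x * ℓ p) * φ p := by
  rw [Fintype.sum_sum_type, Fintype.sum_sigma]
  simp only [ex, pos, pow_zero, one_mul, pow_one, sum_const, card_univ, Fintype.card_fin,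
    nsmul_eq_mul, add_mul, sum_add_distrib, ite_mul, zero_mul]
  congr 1
  · rw [← sum_filter, sum_subtype (p := fun p : Λ × Fin (R + 1) => p.2 ≠ 0 ∨ p.1 = l₀)]
    simp
  · exact sum_congr rfl fun p _ => by ring

theorem sum_fd : ∑ u : Vx l₀ ℓ, ∑ v, (X : ℤ[X]) ^ fd u v =
    Bf (skel l₀ + (X : ℤ[X]) • cw ℓ) (skel l₀ + (X : ℤ[X]) • cw ℓ) +
      ((∑ p, ℓ p : ℕ) : ℤ[X]) * (1 - X ^ 2) := by
  have h1 : ∀ u v : Vx l₀ ℓ, (X : ℤ[X]) ^ fd u v =
      X ^ ex u * (X ^ ex v * X ^ del (pos u) (pos v)) +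
        if v = u then 1 - (X ^ 2) ^ ex u * 1 else 0 := by
    intro u v
    unfold fd
    by_cases h : u = v
    · subst h
      simp only [if_true, del_self]
      ring
    · rw [if_neg h, if_neg (Ne.symm h)]
      ring
  rw [sum_congr rfl fun u _ => sum_congr rfl fun v _ => h1 u v]
  simp only [sum_add_distrib, sum_ite_eq', mem_univ, if_true, ← mul_sum]
  congr 1
  · rw [sum_congr rfl fun u _ => by rw [sum_vx (fun q => X ^ del (pos u) q) X]]
    rw [sum_vx (fun p => ∑ q, ((if q.2 ≠ 0 ∨ q.1 = l₀ then 1 else 0) + X * (ℓ q : ℤ[X])) * X ^ del p q) X,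
      Bf_apply]
    refine sum_congr rfl fun p _ => ?_
    rw [mul_sum]
    refine sum_congr rfl fun q _ => ?_
    simp only [skel, cw, Pi.add_apply, Pi.smul_apply, smul_eq_mul, AddMonoidHom.coe_mk,
      ZeroHom.coe_mk]
    ring
  · have h2 := sum_vx (l₀ := l₀) (ℓ := ℓ) (fun _ => (1 : ℤ[X])) 1
    rw [sum_sub_distrib, sum_vx (fun _ => (1 : ℤ[X])) (X ^ 2)]
    simp only [one_pow, mul_one, one_mul] at h2 ⊢
    rw [h2, ← sum_sub_distrib]
    push_cast
    rw [sum_mul]
    exact sum_congr rfl fun p _ => by ring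

theorem card_vx : (Fintype.card (Vx l₀ ℓ) : ℤ) =
    ∑ p : Λ × Fin (R + 1), ((if p.2 ≠ 0 ∨ p.1 = l₀ then 1 else 0) + (ℓ p : ℤ)) := by
  have h2 := sum_vx (l₀ := l₀) (ℓ := ℓ) (fun _ => (1 : ℤ)) 1
  simpa only [one_pow, mul_one, one_mul, sum_const, card_univ, nsmul_eq_mul] using h2

omit [Fintype Λ] in
theorem fd_le (h : ∀ p, (p.2 : ℕ) = R → ℓ p = 0) (u v : Vx l₀ ℓ) : fd u v ≤ 2 * R := by
  have key : ∀ u : Vx l₀ ℓ, ex u + (pos u).2 ≤ R := by
    rintro (u | ⟨p, i⟩)
    · have := u.1.2.2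
      simp only [ex, pos]
      omega
    · have h1 := p.2.2
      have h2 := i.2
      have := h p
      simp only [ex, pos]
      omega
  have := key u
  have := key v
  have := del_le (pos u) (pos v)
  unfold fd
  split_ifs <;> omega

/-- The tree attached to a weight function. -/
theorem exists_spider (l₀ l₁ : Λ) (hl : l₀ ≠ l₁) (ℓ : Λ × Fin (R + 1) → ℕ)
    (h : ∀ p, (p.2 : ℕ) = R → ℓ p = 0) :
    ∃ (n : ℕ) (G : SimpleGraph (Fin n)), G.IsTree ∧ 2 * R ≤ G.diam ∧
      (n : ℤ) = ∑ p : Λ × Fin (R + 1), ((if p.2 ≠ 0 ∨ p.1 = l₀ then 1 else 0) + (ℓ p : ℤ)) ∧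
      2 * wiener G + (n : ℤ[X]) =
        Bf (skel l₀ + (X : ℤ[X]) • cw ℓ) (skel l₀ + (X : ℤ[X]) • cw ℓ) +
          ((∑ p, ℓ p : ℕ) : ℤ[X]) * (1 - X ^ 2) ∧
      (wiener G).coeff 0 = 0 ∧ (wiener G).coeff 1 + 1 = n ∧
      ∀ k, 2 * R < k → (wiener G).coeff k = 0 := by
  obtain ⟨G, h1, h2, h3, h4, h5⟩ := (treeMetric_fd (l₀ := l₀) (ℓ := ℓ)).exists_tree
  refine ⟨_, G, h1, ?_, card_vx, h3.trans sum_fd, h4, h5, fun k hk => ?_⟩
  · have := h2 (nv l₀ ℓ (l₀, Fin.last R)) (nv l₀ ℓ (l₁, Fin.last R))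
    rw [fd_of_skel (ex_nv _), ex_nv, del_nv, del_symm, del_nv] at this
    simp only [del, if_neg hl.symm, Fin.val_last] at this
    omega
  · have h6 := congrArg (fun p => coeff p k) h3
    have h7 : coeff ((Fintype.card (Vx l₀ ℓ) : ℕ) : ℤ[X]) k = 0 := by
      rw [← C_eq_natCast, coeff_C, if_neg (by omega)]
    simp only [coeff_add, finsetSum_coeff, two_mul, h7, coeff_X_pow] at h6
    rw [sum_eq_zero fun u _ => sum_eq_zero fun v _ => if_neg (by
      have := fd_le h u v
      omega)] at h6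
    omega

end Pool.Agent.P.MP_96b1db_co
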