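import Pool.Agent.P.MP_96b1db_co.Defs

/-! Trees given by their distance function. -/

open Polynomial Finset

namespace Pool.Agent.P.MP_96b1db_co

/-- A distance function that is the path metric of a tree. -/
structure TreeMetric {V : Type} (f : V → V → ℕ) : Prop where
  symm : ∀ u v, f u v = f v u
  zero : ∀ u v, f u v = 0 ↔ u = v
  tri : ∀ u v w, f u w ≤ f u v + f v w
  geod : ∀ u v k, f u v = k + 1 → ∃ w, f u w = 1 ∧ f w v = k
  par : ∃ (r : V) (p : V → V), ∀ u v, f u v = 1 → (u ≠ r ∧ v = p u) ∨ (v ≠ r ∧ u = p v)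

namespace TreeMetric

variable {V : Type} {f : V → V → ℕ} (h : TreeMetric f)

/-- The graph of pairs at distance one. -/
def graph : SimpleGraph V where
  Adj u v := f u v = 1
  symm := ⟨fun u v huv => by rw [h.symm]; exact huv⟩
  loopless := ⟨fun u huu => by
    have := (h.zero u u).mpr rfl
    omega⟩

theorem exists_walk (k : ℕ) : ∀ u v, f u v = k → ∃ p : h.graph.Walk u v, p.length = k := by
  induction k with
  | zero =>
    intro u v huv
    obtain rfl := (h.zero u v).mp huv
    exact ⟨.nil, rfl⟩
  | succ k ih =>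
    intro u v huv
    obtain ⟨w, h1, h2⟩ := h.geod u v k huv
    obtain ⟨p, hp⟩ := ih w v h2
    exact ⟨.cons (show h.graph.Adj u w from h1) p, by simp [hp]⟩

theorem le_length {u v : V} (p : h.graph.Walk u v) : f u v ≤ p.length := by
  induction p with
  | nil => exact ((h.zero _ _).mpr rfl).le
  | @cons a b c hab p ih =>
    have h1 : f a b = 1 := hab
    have := h.tri a b c
    simp only [SimpleGraph.Walk.length_cons]
    omega

theorem dist_eq (u v : V) : h.graph.dist u v = f u v := by
  obtain ⟨p, hp⟩ := h.exists_walk _ u v rfl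
  refine le_antisymm (hp ▸ SimpleGraph.dist_le p) ?_
  obtain ⟨q, hq⟩ := p.reachable.exists_walk_length_eq_dist
  exact hq ▸ h.le_length q

theorem connected : h.graph.Connected := by
  obtain ⟨r, -⟩ := h.par
  have : Nonempty V := ⟨r⟩
  exact ⟨fun u v => (h.exists_walk _ u v rfl).choose.reachable⟩

theorem isTree [Fintype V] : h.graph.IsTree := by
  classical
  rw [SimpleGraph.isTree_iff_connected_and_card]
  refine ⟨h.connected, le_antisymm ?_ h.connected.card_vert_le_card_edgeSet_add_one⟩
  obtain ⟨r, p, hp⟩ := h.par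
  have h1 : h.graph.edgeFinset ⊆ (univ.erase r).image fun u => s(u, p u) := by
    intro e he
    induction e using Sym2.ind with
    | h u v =>
      rw [SimpleGraph.mem_edgeFinset, SimpleGraph.mem_edgeSet] at he
      rcases hp u v he with ⟨h1, h2⟩ | ⟨h1, h2⟩
      · exact mem_image.mpr ⟨u, by simpa using h1, by rw [h2]⟩
      · exact mem_image.mpr ⟨v, by simpa using h1, by rw [h2, Sym2.eq_swap]⟩
  have h2 := (card_le_card h1).trans card_image_le
  rw [card_erase_of_mem (mem_univ r), card_univ] at h2
  have h3 : 0 < Fintype.card V := Fintype.card_pos_iff.mpr ⟨r⟩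
  rw [Nat.card_eq_fintype_card, Nat.card_eq_fintype_card, ← SimpleGraph.edgeFinset_card]
  omega

include h in
theorem comap {W : Type} (e : W ≃ V) : TreeMetric fun u v => f (e u) (e v) where
  symm u v := h.symm _ _
  zero u v := by rw [h.zero, e.apply_eq_iff_eq]
  tri u v w := h.tri _ _ _
  geod u v k huv := by
    obtain ⟨w, h1, h2⟩ := h.geod _ _ k huv
    exact ⟨e.symm w, by simpa using h1, by simpa using h2⟩
  par := by
    obtain ⟨r, p, hp⟩ := h.par
    refine ⟨e.symm r, fun u => e.symm (p (e u)), fun u v huv => ?_⟩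
    rcases hp _ _ huv with ⟨h1, h2⟩ | ⟨h1, h2⟩
    · exact Or.inl ⟨fun h3 => h1 (by simp [h3]), by simp [← h2]⟩
    · exact Or.inr ⟨fun h3 => h1 (by simp [h3]), by simp [← h2]⟩

end TreeMetric

theorem two_mul_wiener {n : ℕ} (G : SimpleGraph (Fin n)) :
    2 * wiener G + (n : ℤ[X]) = ∑ u : Fin n, ∑ v : Fin n, (X : ℤ[X]) ^ G.dist u v := by
  have h1 : ∀ u v : Fin n, (X : ℤ[X]) ^ G.dist u v =
      (if u < v then X ^ G.dist u v else 0) + (if v < u then X ^ G.dist v u else 0) +
        (if v = u then 1 else 0) := by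
    intro u v
    rcases lt_trichotomy u v with h | h | h
    · simp [h, h.not_gt, h.ne']
    · simp [h]
    · simp [h, h.not_gt, h.ne, G.dist_comm (u := u)]
  rw [sum_congr rfl fun u _ => sum_congr rfl fun v _ => h1 u v]
  simp only [sum_add_distrib]
  rw [sum_comm (f := fun u v : Fin n => if v < u then (X : ℤ[X]) ^ G.dist v u else 0)]
  simp only [wiener, sum_filter, sum_ite_eq', mem_univ, if_true, sum_const, card_univ,
    Fintype.card_fin, nsmul_eq_mul, mul_one]
  ring

theorem TreeMetric.exists_tree {V : Type} [Fintype V] {f : V → V → ℕ} (h : TreeMetric f) :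
    ∃ G : SimpleGraph (Fin (Fintype.card V)), G.IsTree ∧ (∀ u v, f u v ≤ G.diam) ∧
      2 * wiener G + (Fintype.card V : ℤ[X]) = ∑ u, ∑ v, (X : ℤ[X]) ^ f u v ∧ (wiener G).coeff 0 = 0 ∧
      (wiener G).coeff 1 + 1 = Fintype.card V := by
  classical
  let e := (Fintype.equivFin V).symm
  have h' := h.comap e
  refine ⟨h'.graph, h'.isTree, fun u v => ?_, ?_, ?_, ?_⟩
  · have : Nonempty (Fin (Fintype.card V)) := ⟨e.symm u⟩
    have := SimpleGraph.dist_le_diam (u := e.symm u) (v := e.symm v)
      (SimpleGraph.connected_iff_ediam_ne_top.mp h'.connected)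
    simpa [h'.dist_eq] using this
  · rw [two_mul_wiener]
    simp only [h'.dist_eq]
    refine Fintype.sum_equiv e _ _ fun u => Fintype.sum_equiv e _ _ fun v => rfl
  · simp only [wiener, finsetSum_coeff, coeff_X_pow]
    refine sum_eq_zero fun u _ => sum_eq_zero fun v hv => if_neg ?_
    rw [h'.dist_eq, eq_comm, h'.zero]
    exact (mem_filter.mp hv).2.ne
  · have h1 := congrArg (fun p => coeff p 1) (two_mul_wiener h'.graph)
    have h2 := h'.graph.sum_degrees_eq_twice_card_edges
    have h3 := h'.isTree.card_edgeFinset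
    have h4 : ∀ u, ∑ v, coeff ((X : ℤ[X]) ^ h'.graph.dist u v) 1 = h'.graph.degree u := by
      intro u
      simp only [coeff_X_pow, h'.dist_eq, sum_boole]
      rw [← SimpleGraph.card_neighborFinset_eq_degree, SimpleGraph.neighborFinset_eq_filter]
      congr 2
      ext v
      simp only [mem_filter, mem_univ, true_and]
      exact eq_comm
    simp only [coeff_add, finsetSum_coeff, h4] at h1
    rw [← Nat.cast_sum, h2] at h1
    have h5 : coeff (2 * wiener h'.graph) 1 = 2 * coeff (wiener h'.graph) 1 := by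
      rw [two_mul, two_mul, coeff_add]
    have h6 : coeff ((Fintype.card V : ℕ) : ℤ[X]) 1 = 0 := by
      rw [← C_eq_natCast, coeff_C]
      simp
    rw [h5, h6] at h1
    rw [Fintype.card_fin] at h3
    push_cast at h1
    omega

end Pool.Agent.P.MP_96b1db_co
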